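import Pool.Agent.Helper21.KP.Omit

/-! # BD: Schwarz-Pick for the inverse function -/

set_option autoImplicit false

namespace Pool.Agent.Helper41.BD

open Metric Set

private theorem bdC_inv {f g : ℂ → ℂ} (hf : DifferentiableOn ℂ f (ball 0 1))
    (hi : InjOn f (ball 0 1)) (hg : ∀ w ∈ f '' ball 0 1, g w ∈ ball (0 : ℂ) 1 ∧ f (g w) = w)
    {w : ℂ} (hw : w ∈ f '' ball 0 1) : HasDerivAt g (deriv f (g w))⁻¹ w := by
  have hgb : g w ∈ ball (0 : ℂ) 1 := (hg w hw).1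
  have hgf : ∀ z ∈ ball (0 : ℂ) 1, g (f z) = z := fun z hz =>
    hi (hg _ (mem_image_of_mem f hz)).1 hz (hg _ (mem_image_of_mem f hz)).2
  have h0 : AnalyticAt ℂ f (g w) := hf.analyticAt (isOpen_ball.mem_nhds hgb)
  have h1 : HasStrictDerivAt f (deriv f (g w)) (g w) := h0.hasStrictDerivAt
  have h2 : deriv f (g w) ≠ 0 := Pool.Agent.Helper21.IM.deriv_ne isOpen_ball hf hi hgb
  have h6 : ∀ V ∈ nhds (g w), f '' (V ∩ ball (0 : ℂ) 1) ∈ nhds w := by
    intro V hV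
    have h4 : V ∩ ball (0 : ℂ) 1 ∈ nhds (g w) :=
      Filter.inter_mem hV (isOpen_ball.mem_nhds hgb)
    have h5 : f '' (V ∩ ball (0 : ℂ) 1) ∈ nhds (f (g w)) := by
      rw [← h1.map_nhds_eq h2]
      exact Filter.image_mem_map h4
    rwa [(hg w hw).2] at h5
  have h3 : ContinuousAt g w := by
    intro V hV
    refine Filter.mem_map.2 (Filter.mem_of_superset (h6 V hV) ?_)
    rintro _ ⟨z, ⟨hzV, hz⟩, rfl⟩
    change g (f z) ∈ V
    rw [hgf z hz]
    exact hzV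
  refine HasDerivAt.of_local_left_inverse h3 h1.hasDerivAt h2 ?_
  refine Filter.mem_of_superset (h6 Set.univ Filter.univ_mem) ?_
  rintro _ ⟨z, ⟨_, hz⟩, rfl⟩
  exact (hg _ (mem_image_of_mem f hz)).2

private theorem bdC_mob {z u : ℂ} (hz : ‖z‖ < 1) (hu : ‖u‖ < 1) :
    1 - (starRingEnd ℂ) z * u ≠ 0 ∧ ‖(u - z) / (1 - (starRingEnd ℂ) z * u)‖ ≤ 1 := by
  have h1 : 1 - (starRingEnd ℂ) z * u ≠ 0 := by
    intro h
    have h2 : ‖(starRingEnd ℂ) z * u‖ < 1 := by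
      rw [norm_mul, RCLike.norm_conj]
      calc ‖z‖ * ‖u‖ ≤ ‖z‖ * 1 := mul_le_mul_of_nonneg_left hu.le (norm_nonneg z)
        _ < 1 := by rw [mul_one]; exact hz
    rw [← sub_eq_zero.1 h, norm_one] at h2
    exact lt_irrefl _ h2
  refine ⟨h1, ?_⟩
  rw [norm_div, div_le_one (norm_pos_iff.2 h1)]
  refine le_of_sq_le_sq ?_ (norm_nonneg _)
  have h3 : ‖1 - (starRingEnd ℂ) z * u‖ ^ 2 - ‖u - z‖ ^ 2 = (1 - ‖u‖ ^ 2) * (1 - ‖z‖ ^ 2) := by
    rw [← Complex.normSq_eq_norm_sq, ← Complex.normSq_eq_norm_sq, ← Complex.normSq_eq_norm_sq,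
      ← Complex.normSq_eq_norm_sq, Complex.normSq_apply, Complex.normSq_apply,
      Complex.normSq_apply, Complex.normSq_apply]
    simp only [Complex.sub_re, Complex.sub_im, Complex.mul_re, Complex.mul_im, Complex.one_re,
      Complex.one_im, Complex.conj_re, Complex.conj_im]
    ring
  have h4 : 0 ≤ (1 - ‖u‖ ^ 2) * (1 - ‖z‖ ^ 2) := by
    refine mul_nonneg ?_ ?_
    · have := pow_le_one₀ (n := 2) (norm_nonneg u) hu.le
      linarith
    · have := pow_le_one₀ (n := 2) (norm_nonneg z) hz.le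
      linarith
  linarith

/-- piece `BD-C`: `dist (f z, ∂ f(D)) ≤ (1 - |z|²) |f'(z)|`.
Proof. Let `d := infDist (f z) (f '' ball 0 1)ᶜ`; if `d = 0` nothing to prove. Otherwise `ball (f z) d ⊆ f '' ball 0 1`
(if the complement is empty then `d = 0`). Let `g := Function.invFunOn f (ball 0 1)` on that ball; it is differentiable there
(see the proof of `Pool.Agent.Helper21.KP.omit_val`: `deriv_ne`, open mapping, `HasDerivAt.of_local_left_inverse`), with
derivative `(deriv f (g w))⁻¹`, `g (f z) = z`. `h w := (g w - z) / (1 - conj z * g w)` maps `ball (f z) d` into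
`ball 0 1` (Möbius transformation), `h (f z) = 0`, `deriv h (f z) = (deriv f z)⁻¹ / (1 - ‖z‖^2)`. Schwarz lemma
(`Complex.norm_deriv_le_div_of_mapsTo_ball` or `Complex.norm_deriv_le_one_div_of_mapsTo_ball`):
`‖deriv h (f z)‖ ≤ 1 / d`. -/
theorem sp {f : ℂ → ℂ} (hf : DifferentiableOn ℂ f (ball 0 1)) (hi : InjOn f (ball 0 1)) {z : ℂ}
    (hz : z ∈ ball (0 : ℂ) 1) :
    infDist (f z) (f '' ball 0 1)ᶜ ≤ (1 - ‖z‖ ^ 2) * ‖deriv f z‖ := by
  have hz1 : ‖z‖ < 1 := by rwa [mem_ball_zero_iff] at hz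
  have hzsq : 0 < 1 - ‖z‖ ^ 2 := by
    have h := pow_lt_one₀ (norm_nonneg z) hz1 two_ne_zero
    linarith
  obtain ⟨d, hd⟩ : ∃ d, d = infDist (f z) (f '' ball 0 1)ᶜ := ⟨_, rfl⟩
  rw [← hd]
  rcases le_or_gt d 0 with hd0 | hd0
  · exact hd0.trans (mul_nonneg hzsq.le (norm_nonneg _))
  have hsub : ball (f z) d ⊆ f '' ball 0 1 := by
    intro w hw
    by_contra hcon
    have h1 : infDist (f z) (f '' ball 0 1)ᶜ ≤ dist (f z) w := infDist_le_dist_of_mem hcon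
    rw [mem_ball, dist_comm, hd] at hw
    exact absurd hw (not_lt.2 h1)
  obtain ⟨g, hg⟩ : ∃ g : ℂ → ℂ, ∀ w ∈ f '' ball 0 1, g w ∈ ball (0 : ℂ) 1 ∧ f (g w) = w := by
    refine ⟨Function.invFunOn f (ball 0 1), fun w hw => ⟨Function.invFunOn_mem hw,
      Function.invFunOn_eq hw⟩⟩
  have hfz : f z ∈ f '' ball 0 1 := mem_image_of_mem f hz
  have hgz : g (f z) = z := hi (hg _ hfz).1 hz (hg _ hfz).2
  have hder : ∀ w ∈ ball (f z) d, HasDerivAt g (deriv f (g w))⁻¹ w :=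
    fun w hw => bdC_inv hf hi hg (hsub hw)
  have hgn : ∀ w ∈ ball (f z) d, ‖g w‖ < 1 := by
    intro w hw
    have h := (hg w (hsub hw)).1
    rwa [mem_ball_zero_iff] at h
  obtain ⟨h, hh⟩ : ∃ h : ℂ → ℂ, h = fun w => (g w - z) / (1 - (starRingEnd ℂ) z * g w) := ⟨_, rfl⟩
  have hhz : h (f z) = 0 := by
    rw [hh]
    change (g (f z) - z) / _ = 0
    rw [hgz, sub_self, zero_div]
  have hhd : DifferentiableOn ℂ h (ball (f z) d) := by
    intro w hw
    rw [hh]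
    have h1 := (hder w hw).differentiableAt
    have h2 : DifferentiableAt ℂ (fun w => (g w - z) / (1 - (starRingEnd ℂ) z * g w)) w :=
      (h1.sub_const z).div ((h1.const_mul _).const_sub 1) (bdC_mob hz1 (hgn w hw)).1
    exact h2.differentiableWithinAt
  have hmap : MapsTo h (ball (f z) d) (closedBall (h (f z)) 1) := by
    intro w hw
    rw [hhz, mem_closedBall_zero_iff, hh]
    exact (bdC_mob hz1 (hgn w hw)).2
  have hfzb : f z ∈ ball (f z) d := mem_ball_self hd0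
  have hD : 1 - (starRingEnd ℂ) z * z = ((1 - ‖z‖ ^ 2 : ℝ) : ℂ) := by
    rw [← Complex.normSq_eq_conj_mul_self, Complex.normSq_eq_norm_sq]
    push_cast
    rfl
  have hD0 : ((1 - ‖z‖ ^ 2 : ℝ) : ℂ) ≠ 0 := by
    rw [Complex.ofReal_ne_zero]
    exact hzsq.ne'
  have hhder : HasDerivAt h ((deriv f z)⁻¹ / ((1 - ‖z‖ ^ 2 : ℝ) : ℂ)) (f z) := by
    have h1 := hder (f z) hfzb
    rw [hgz] at h1
    have h2 := (h1.sub_const z).div ((h1.const_mul ((starRingEnd ℂ) z)).const_sub 1)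
      (bdC_mob hz1 (hgn (f z) hfzb)).1
    rw [hh]
    refine h2.congr_deriv ?_
    rw [hgz, sub_self, hD]
    field_simp
    ring
  have hfin := Complex.norm_deriv_le_div_of_mapsTo_ball hhd hmap hd0
  have hf' : deriv f z ≠ 0 := Pool.Agent.Helper21.IM.deriv_ne isOpen_ball hf hi hz
  rw [hhder.deriv, norm_div, norm_inv, Complex.norm_real, Real.norm_of_nonneg hzsq.le] at hfin
  have hp : 0 < (1 - ‖z‖ ^ 2) * ‖deriv f z‖ := mul_pos hzsq (norm_pos_iff.2 hf')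
  have h3 : ‖deriv f z‖⁻¹ / (1 - ‖z‖ ^ 2) = 1 / ((1 - ‖z‖ ^ 2) * ‖deriv f z‖) := by
    rw [one_div, mul_inv, div_eq_mul_inv, mul_comm]
  rw [h3] at hfin
  exact (one_div_le_one_div hp hd0).1 hfin

end Pool.Agent.Helper41.BD
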