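import Pool.Agent.Helper41.BD.Cov
import Pool.Agent.Helper41.BD.Sp
import Pool.Agent.Helper21.KP.JHold
import Pool.Agent.Helper21.IM.RMono

/-! # BD: integrals over annuli -/

set_option autoImplicit false

namespace Pool.Agent.Helper41.BD

open Complex Metric Set Real Finset MeasureTheory
open Pool.Agent.Helper21.IM Pool.Agent.Helper21.KP

private theorem bdH_open {f : ℂ → ℂ} (hf : DifferentiableOn ℂ f (ball 0 1))
    (hi : InjOn f (ball 0 1)) : IsOpen (f '' ball 0 1) := by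
  have ha : AnalyticOnNhd ℂ f (ball 0 1) := hf.analyticOnNhd isOpen_ball
  rcases ha.is_constant_or_isOpen (convex_ball (0 : ℂ) 1).isPreconnected with ⟨w, hw⟩ | h
  · exfalso
    have h0 : (0 : ℂ) ∈ ball (0 : ℂ) 1 := by simp
    have h1 : (1 / 2 : ℂ) ∈ ball (0 : ℂ) 1 := by
      rw [mem_ball_zero_iff]
      norm_num
    have h2 := hi h0 h1 ((hw _ h0).trans (hw _ h1).symm)
    norm_num at h2
  · exact h _ Subset.rfl isOpen_ball

private theorem bdH_pt {D e d p w : ℝ} (hp : p ≤ 2) (hd : 0 < d) (he : 0 < e) (hw : 0 ≤ w)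
    (h : d ≤ e * D) : D ^ p * w ≤ e ^ (2 - p) * (D ^ 2 * (d ^ (p - 2) * w)) := by
  have hD : 0 < D := by
    by_contra hcon
    have h1 : e * D ≤ 0 := mul_nonpos_of_nonneg_of_nonpos he.le (not_lt.1 hcon)
    linarith
  have h1 : d / e ≤ D := by
    rw [div_le_iff₀ he]
    linarith
  have h2 : D ^ (p - 2) ≤ (d / e) ^ (p - 2) :=
    Real.rpow_le_rpow_of_nonpos (by positivity) h1 (by linarith)
  have h3 : (d / e) ^ (p - 2) = d ^ (p - 2) * e ^ (2 - p) := by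
    rw [Real.div_rpow hd.le he.le, div_eq_mul_inv, ← Real.rpow_neg he.le]
    congr 2
    ring
  have h4 : D ^ p = D ^ 2 * D ^ (p - 2) := by
    rw [← Real.rpow_natCast D 2, ← Real.rpow_add hD]
    congr 1
    push_cast
    ring
  rw [h3] at h2
  rw [h4]
  have h5 : 0 ≤ D ^ 2 * w := by positivity
  have h6 := mul_le_mul_of_nonneg_left h2 h5
  calc D ^ 2 * D ^ (p - 2) * w = D ^ 2 * w * D ^ (p - 2) := by ring
    _ ≤ D ^ 2 * w * (d ^ (p - 2) * e ^ (2 - p)) := h6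
    _ = _ := by ring

private theorem bdH_growth {f : ℂ → ℂ} (hf : DifferentiableOn ℂ f (ball 0 1))
    (hi : InjOn f (ball 0 1)) {ρ : ℝ} (h0 : 0 < ρ) (h1 : ρ < 1) {z : ℂ}
    (hz : z ∈ ball (0 : ℂ) ((1 + ρ) / 2)) :
    ‖f z‖ ≤ 4 * (‖f 0‖ + ‖deriv f 0‖ + 1) / (1 - ρ) ^ 2 := by
  have hz1 : ‖z‖ < (1 + ρ) / 2 := by rwa [mem_ball_zero_iff] at hz
  have hzb : z ∈ ball (0 : ℂ) 1 := by
    rw [mem_ball_zero_iff]
    linarith
  have h2 := growth2 hf hi hzb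
  have hr : 0 < 1 - ρ := by linarith
  have h3 : ((1 - ρ) / 2) ^ 2 ≤ (1 - ‖z‖) ^ 2 := pow_le_pow_left₀ (by linarith) (by linarith) 2
  have h4 : (1 - ρ) ^ 2 ≤ 1 := pow_le_one₀ hr.le (by linarith)
  have h5 : 0 < (1 - ρ) ^ 2 := by positivity
  have h6 : ‖deriv f 0‖ / (1 - ‖z‖) ^ 2 ≤ ‖deriv f 0‖ / ((1 - ρ) / 2) ^ 2 :=
    div_le_div_of_nonneg_left (norm_nonneg _) (by positivity) h3
  have h7 : ‖deriv f 0‖ / ((1 - ρ) / 2) ^ 2 = 4 * ‖deriv f 0‖ / (1 - ρ) ^ 2 := by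
    field_simp
    ring
  rw [h7] at h6
  have h8 : ‖f 0‖ ≤ 4 * ‖f 0‖ / (1 - ρ) ^ 2 := by
    rw [le_div_iff₀ h5]
    nlinarith [norm_nonneg (f 0)]
  have h9 : 4 * (‖f 0‖ + ‖deriv f 0‖ + 1) / (1 - ρ) ^ 2 =
      4 * ‖f 0‖ / (1 - ρ) ^ 2 + 4 * ‖deriv f 0‖ / (1 - ρ) ^ 2 + 4 / (1 - ρ) ^ 2 := by
    ring
  have h10 : 0 ≤ 4 / (1 - ρ) ^ 2 := by positivity
  rw [h9]
  linarith

private theorem bdH_const {C K p b r : ℝ} (hr : 0 < r) (hK : 0 < K) :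
    (2 * r) ^ (2 - p) * (C * (4 * K / r ^ 2) ^ (p - b)) =
      (2 : ℝ) ^ (2 - p) * C * (4 * K) ^ (p - b) * r ^ (2 - p - 2 * (p - b)) := by
  have h1 : (2 * r) ^ (2 - p) = (2 : ℝ) ^ (2 - p) * r ^ (2 - p) :=
    Real.mul_rpow (by norm_num) hr.le
  have h2 : (4 * K / r ^ 2) ^ (p - b) = (4 * K) ^ (p - b) * r ^ (-(2 * (p - b))) := by
    rw [Real.div_rpow (by positivity) (by positivity), div_eq_mul_inv, ← Real.rpow_natCast r 2,
      ← Real.rpow_mul hr.le, ← Real.rpow_neg hr.le]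
    push_cast
    rfl
  have h3 : r ^ (2 - p - 2 * (p - b)) = r ^ (2 - p) * r ^ (-(2 * (p - b))) := by
    rw [← Real.rpow_add hr]
    congr 1
  rw [h1, h2, h3]
  ring

/-- piece `BD-H`: the integral of `|f'|^p (1 + |f|)^(-b)` over the annulus `ρ ≤ |z| < (1 + ρ)/2`.
Proof. `Ω = f '' ball 0 1` is open (`f` is injective: `deriv_ne` in IM/DerivNe.lean and the open mapping, or
`AnalyticOnNhd.is_constant_or_isOpen`), `Ωᶜ` is nonempty (`omit_val`), `A` = the annulus, `σ = (1 + ρ)/2`. For `z ∈ A`, with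
`d = infDist (f z) Ωᶜ > 0`: `sp` gives `d ≤ (1 - ‖z‖²) ‖f' z‖ ≤ 2 (1 - ρ) ‖f' z‖`, so
(`p ≤ 2`) `‖f' z‖^(p-2) ≤ (d / (2 (1-ρ)))^(p-2)`, `‖f' z‖^p (1 + ‖f z‖)^(-b) ≤
(2 (1-ρ))^(2-p) * ‖f' z‖^2 * (d^(p-2) (1 + ‖f z‖)^(-b))`. By `area_change` (IM/Area.lean, `U = ball 0 1`,
`g v = ENNReal.ofReal (infDist v Ωᶜ ^ (p-2) * (1 + ‖v‖)^(-b))`) the integral is at most
`ofReal ((2 (1-ρ))^(2-p)) * ∫⁻ v in f '' A, g v`, and `f '' A ⊆ Ω ∩ closedBall 0 M`, `M = K / (1 - σ)^2 = 4 K / (1-ρ)^2` with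
`K = ‖f 0‖ + ‖deriv f 0‖ + 1` by `growth2` (KP/Bieb.lean). `cov2` for `R = M ≥ 1`. -/
theorem p_area {f : ℂ → ℂ} (hf : DifferentiableOn ℂ f (ball 0 1)) (hi : InjOn f (ball 0 1))
    {s p b : ℝ} (hs : 0 ≤ s) (hsp : s < p) (hp : p ≤ 2) (hb : 0 ≤ b) (hbp : b < p)
    (hE : BoxDim (frontier (f '' ball 0 1)) s) :
    ∃ C : ℝ, 0 < C ∧ ∀ ρ : ℝ, 0 < ρ → ρ < 1 →
      ∫⁻ z in ball (0 : ℂ) ((1 + ρ) / 2) \ ball 0 ρ,
          ENNReal.ofReal (‖deriv f z‖ ^ p * (1 + ‖f z‖) ^ (-b)) ≤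
        ENNReal.ofReal (C * (1 - ρ) ^ (2 - p - 2 * (p - b))) := by
  have hopen : IsOpen (f '' ball 0 1) := bdH_open hf hi
  have hne : (f '' ball 0 1)ᶜ.Nonempty := by
    obtain ⟨w₀, hw₀⟩ := omit_val hf hi
    refine ⟨w₀, ?_⟩
    rintro ⟨z, hz, h⟩
    exact hw₀ z hz h
  obtain ⟨C, hC, hcov⟩ := cov2 hopen hne hs hsp hp hb hbp hE
  obtain ⟨K, hK⟩ : ∃ K : ℝ, K = ‖f 0‖ + ‖deriv f 0‖ + 1 := ⟨_, rfl⟩
  have hK1 : 1 ≤ K := by
    rw [hK]
    linarith [norm_nonneg (f 0), norm_nonneg (deriv f 0)]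
  have hK0 : 0 < K := by linarith
  refine ⟨(2 : ℝ) ^ (2 - p) * C * (4 * K) ^ (p - b), by positivity, fun ρ h0 h1 => ?_⟩
  have hr : 0 < 1 - ρ := by linarith
  have hAm : MeasurableSet (ball (0 : ℂ) ((1 + ρ) / 2) \ ball 0 ρ) :=
    measurableSet_ball.diff measurableSet_ball
  have hAU : ball (0 : ℂ) ((1 + ρ) / 2) \ ball 0 ρ ⊆ ball 0 1 := by
    intro z hz
    have h2 := hz.1
    rw [mem_ball_zero_iff] at h2 ⊢
    linarith
  have hpt : ∀ z ∈ ball (0 : ℂ) ((1 + ρ) / 2) \ ball 0 ρ,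
      ENNReal.ofReal (‖deriv f z‖ ^ p * (1 + ‖f z‖) ^ (-b)) ≤
        ENNReal.ofReal ((2 * (1 - ρ)) ^ (2 - p)) * (ENNReal.ofReal (‖deriv f z‖ ^ 2) *
          ENNReal.ofReal (infDist (f z) (f '' ball 0 1)ᶜ ^ (p - 2) * (1 + ‖f z‖) ^ (-b))) := by
    intro z hz
    have hzb := hAU hz
    have hz1 : ρ ≤ ‖z‖ := by
      have h2 := hz.2
      rw [mem_ball_zero_iff, not_lt] at h2
      exact h2
    have hz2 : ‖z‖ < 1 := by rwa [mem_ball_zero_iff] at hzb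
    have hd : 0 < infDist (f z) (f '' ball 0 1)ᶜ :=
      (hopen.isClosed_compl.notMem_iff_infDist_pos hne).1 fun h => h (mem_image_of_mem f hzb)
    have h3 : infDist (f z) (f '' ball 0 1)ᶜ ≤ 2 * (1 - ρ) * ‖deriv f z‖ := by
      refine (sp hf hi hzb).trans (mul_le_mul_of_nonneg_right ?_ (norm_nonneg _))
      nlinarith [norm_nonneg z]
    rw [← ENNReal.ofReal_mul (by positivity), ← ENNReal.ofReal_mul (by positivity)]
    exact ENNReal.ofReal_le_ofReal (bdH_pt hp hd (by linarith) (by positivity) h3)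
  have hsub : f '' (ball (0 : ℂ) ((1 + ρ) / 2) \ ball 0 ρ) ⊆
      f '' ball 0 1 ∩ closedBall 0 (4 * K / (1 - ρ) ^ 2) := by
    rintro _ ⟨z, hz, rfl⟩
    refine ⟨mem_image_of_mem f (hAU hz), ?_⟩
    rw [mem_closedBall_zero_iff, hK]
    exact bdH_growth hf hi h0 h1 hz.1
  have hM : 1 ≤ 4 * K / (1 - ρ) ^ 2 := by
    have h4 : (1 - ρ) ^ 2 ≤ 1 := pow_le_one₀ hr.le (by linarith)
    rw [one_le_div (by positivity)]
    linarith
  calc ∫⁻ z in ball (0 : ℂ) ((1 + ρ) / 2) \ ball 0 ρ,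
          ENNReal.ofReal (‖deriv f z‖ ^ p * (1 + ‖f z‖) ^ (-b))
      ≤ ∫⁻ z in ball (0 : ℂ) ((1 + ρ) / 2) \ ball 0 ρ,
          ENNReal.ofReal ((2 * (1 - ρ)) ^ (2 - p)) * (ENNReal.ofReal (‖deriv f z‖ ^ 2) *
          ENNReal.ofReal (infDist (f z) (f '' ball 0 1)ᶜ ^ (p - 2) * (1 + ‖f z‖) ^ (-b))) :=
        setLIntegral_mono' hAm hpt
    _ = ENNReal.ofReal ((2 * (1 - ρ)) ^ (2 - p)) *
          ∫⁻ z in ball (0 : ℂ) ((1 + ρ) / 2) \ ball 0 ρ, ENNReal.ofReal (‖deriv f z‖ ^ 2) *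
          ENNReal.ofReal (infDist (f z) (f '' ball 0 1)ᶜ ^ (p - 2) * (1 + ‖f z‖) ^ (-b)) := by
        rw [lintegral_const_mul' _ _ ENNReal.ofReal_ne_top]
    _ = ENNReal.ofReal ((2 * (1 - ρ)) ^ (2 - p)) *
          ∫⁻ v in f '' (ball (0 : ℂ) ((1 + ρ) / 2) \ ball 0 ρ),
            ENNReal.ofReal (infDist v (f '' ball 0 1)ᶜ ^ (p - 2) * (1 + ‖v‖) ^ (-b)) := by
        rw [← area_change isOpen_ball hf hi hAm hAU (fun v =>
          ENNReal.ofReal (infDist v (f '' ball 0 1)ᶜ ^ (p - 2) * (1 + ‖v‖) ^ (-b)))]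
    _ ≤ ENNReal.ofReal ((2 * (1 - ρ)) ^ (2 - p)) *
          ENNReal.ofReal (C * (4 * K / (1 - ρ) ^ 2) ^ (p - b)) := by
        gcongr
        exact (lintegral_mono_set hsub).trans (hcov _ hM)
    _ = _ := by
        rw [← ENNReal.ofReal_mul (by positivity), bdH_const hr hK0]

/-- piece `BD-I`: from the integral over the annulus to circle means.
Proof. `σ = (1 + ρ)/2`, `h z = ‖deriv f z‖^p (1 + ‖f z‖)^(-b)`, continuous and positive on the disc. `radial` (IM/Area.lean) with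
`φ` = the constant `c`, `ε = ρ`, `R = σ`: `∫ r in ρ..σ, 2 π r c = π (σ² - ρ²) c ≥ π ρ (1 - ρ) c ≥ (π/2) (1-ρ) c`
(`σ² - ρ² = (σ - ρ)(σ + ρ)`, `σ - ρ = (1-ρ)/2`, `σ + ρ ≥ 2 ρ ≥ 1`). -/
theorem ann_low {f : ℂ → ℂ} (hf : DifferentiableOn ℂ f (ball 0 1)) {p b ρ c M : ℝ} (hp : 0 ≤ p)
    (h0 : 1 / 2 ≤ ρ) (h1 : ρ < 1) (hc : 0 ≤ c)
    (hle : ∀ r ∈ Ioo ρ ((1 + ρ) / 2),
      c ≤ circleAverage (fun z => ‖deriv f z‖ ^ p * (1 + ‖f z‖) ^ (-b)) 0 r) (hM : 0 ≤ M)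
    (h : ∫⁻ z in ball (0 : ℂ) ((1 + ρ) / 2) \ ball 0 ρ,
          ENNReal.ofReal (‖deriv f z‖ ^ p * (1 + ‖f z‖) ^ (-b)) ≤ ENNReal.ofReal M) :
    c * (1 - ρ) ≤ M := by
  have hρ : 0 < ρ := by linarith
  have hlt : ρ < (1 + ρ) / 2 := by linarith
  have hsub : ball (0 : ℂ) ((1 + ρ) / 2) \ ball 0 ρ ⊆ ball 0 1 := fun z hz => by
    have h2 := mem_ball_zero_iff.1 hz.1
    exact mem_ball_zero_iff.2 (by linarith)
  have hcont : ContinuousOn (fun z => ‖deriv f z‖ ^ p * (1 + ‖f z‖) ^ (-b)) (ball 0 1) := by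
    have h2 : ContinuousOn (deriv f) (ball 0 1) := (hf.deriv isOpen_ball).continuousOn
    have h3 : ContinuousOn f (ball 0 1) := hf.continuousOn
    refine ContinuousOn.mul ?_ ?_
    · exact h2.norm.rpow_const fun z _ => Or.inr hp
    · refine (h3.norm.const_add 1).rpow_const fun z _ => Or.inl ?_
      have h4 : (0 : ℝ) < 1 + ‖f z‖ := by positivity
      exact h4.ne'
  have h2 := radial (h := fun z => ‖deriv f z‖ ^ p * (1 + ‖f z‖) ^ (-b)) (φ := fun _ => c)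
    hρ hlt (hcont.mono hsub) (fun w _ => by positivity) continuousOn_const hle
  have h3 := (ENNReal.ofReal_le_ofReal_iff hM).1 (h2.trans h)
  have h4 : ∫ r in ρ..((1 + ρ) / 2), 2 * π * r * c =
      π * c * (((1 + ρ) / 2) ^ 2 - ρ ^ 2) := by
    have h5 : ∀ r : ℝ, 2 * π * r * c = (2 * π * c) * r := fun r => by ring
    simp only [h5]
    rw [intervalIntegral.integral_const_mul, integral_id]
    ring
  rw [h4] at h3
  refine le_trans ?_ h3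
  have h5 : ((1 + ρ) / 2) ^ 2 - ρ ^ 2 = (1 - ρ) * ((1 + 3 * ρ) / 4) := by ring
  rw [h5]
  have h6 : 1 ≤ π * ((1 + 3 * ρ) / 4) := by
    have h7 := Real.pi_gt_three
    nlinarith
  have h7 : 0 ≤ c * (1 - ρ) := mul_nonneg hc (by linarith)
  calc c * (1 - ρ) = c * (1 - ρ) * 1 := by ring
    _ ≤ c * (1 - ρ) * (π * ((1 + 3 * ρ) / 4)) := mul_le_mul_of_nonneg_left h6 h7
    _ = π * c * ((1 - ρ) * ((1 + 3 * ρ) / 4)) := by ring

private theorem bdJ_sphere {ρ : ℝ} (h0 : 0 ≤ ρ) (h1 : ρ < 1) {z : ℂ}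
    (hz : z ∈ sphere (0 : ℂ) |ρ|) : z ∈ ball (0 : ℂ) 1 := by
  rw [abs_of_nonneg h0, mem_sphere_zero_iff_norm] at hz
  rw [mem_ball_zero_iff, hz]
  exact h1

private theorem bdJ_cont {f : ℂ → ℂ} (hf : DifferentiableOn ℂ f (ball 0 1)) {s c : ℝ}
    (hs : 0 ≤ s) {ρ : ℝ} (h0 : 0 ≤ ρ) (h1 : ρ < 1) :
    CircleIntegrable (fun z => ‖deriv f z‖ ^ s * (1 + ‖f z‖) ^ c) 0 ρ := by
  apply ContinuousOn.circleIntegrable'
  have hsub : sphere (0 : ℂ) |ρ| ⊆ ball 0 1 := fun z hz => bdJ_sphere h0 h1 hz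
  have hd : ContinuousOn (fun z => ‖deriv f z‖) (sphere (0 : ℂ) |ρ|) :=
    ((hf.deriv isOpen_ball).continuousOn.mono hsub).norm
  have hf' : ContinuousOn (fun z => 1 + ‖f z‖) (sphere (0 : ℂ) |ρ|) :=
    continuousOn_const.add (hf.continuousOn.mono hsub).norm
  exact (hd.rpow_const fun z _ => Or.inr hs).mul
    (hf'.rpow_const fun z _ => Or.inl (by positivity))

private theorem bdJ_key {f : ℂ → ℂ} (hf : DifferentiableOn ℂ f (ball 0 1))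
    {p b t₀ a x lam : ℝ} (hp : 0 ≤ p) (ht : 0 ≤ t₀) (hx0 : 0 < x) (hx1 : x < 1)
    (hax : a * (1 - x) = b * x) (hlam : lam = t₀ * (1 - x) + p * x) (hl : 0 ≤ lam)
    {A B r : ℝ} (hA0 : 0 < A) (hB0 : 0 < B) (h0 : 0 ≤ r) (h1 : r < 1) :
    circleAverage (fun z => ‖deriv f z‖ ^ lam) 0 r ≤
      A ^ x * B ^ (1 - x) *
        (x / A * circleAverage (fun z => ‖deriv f z‖ ^ p * (1 + ‖f z‖) ^ (-b)) 0 r +
        (1 - x) / B * circleAverage (fun z => ‖deriv f z‖ ^ t₀ * (1 + ‖f z‖) ^ a) 0 r) := by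
  have hv1 : 0 < 1 - x := by linarith
  have hIP := bdJ_cont hf (s := p) (c := -b) hp h0 h1
  have hIQ := bdJ_cont hf (s := t₀) (c := a) ht h0 h1
  have hI : CircleIntegrable (fun z => ‖deriv f z‖ ^ lam) 0 r := by
    have h := bdJ_cont hf (s := lam) (c := 0) hl h0 h1
    simpa using h
  have key : circleAverage (fun z => ‖deriv f z‖ ^ lam) 0 r ≤
      circleAverage (fun z =>
        (A ^ x * B ^ (1 - x) * (x / A)) • (‖deriv f z‖ ^ p * (1 + ‖f z‖) ^ (-b)) +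
        (A ^ x * B ^ (1 - x) * ((1 - x) / B)) • (‖deriv f z‖ ^ t₀ * (1 + ‖f z‖) ^ a)) 0 r := by
    refine circleAverage_mono hI ?_ fun z hz => ?_
    · exact (hIP.const_fun_smul).add (hIQ.const_fun_smul)
    · have hFz : 0 < 1 + ‖f z‖ := by positivity
      have hdz : 0 ≤ ‖deriv f z‖ := norm_nonneg _
      set P := ‖deriv f z‖ ^ p * (1 + ‖f z‖) ^ (-b) with hPdef
      set Q := ‖deriv f z‖ ^ t₀ * (1 + ‖f z‖) ^ a with hQdef
      have hP0 : 0 ≤ P := by positivity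
      have hQ0 : 0 ≤ Q := by positivity
      have e1 : ‖deriv f z‖ ^ lam = P ^ x * Q ^ (1 - x) := by
        rw [hPdef, hQdef, Real.mul_rpow (by positivity) (by positivity),
          Real.mul_rpow (by positivity) (by positivity), ← Real.rpow_mul hdz, ← Real.rpow_mul hdz,
          ← Real.rpow_mul hFz.le, ← Real.rpow_mul hFz.le]
        have e2 : (1 + ‖f z‖) ^ (-b * x) * (1 + ‖f z‖) ^ (a * (1 - x)) = 1 := by
          rw [← Real.rpow_add hFz, hax]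
          have : -b * x + b * x = 0 := by ring
          rw [this, Real.rpow_zero]
        have e3 : ‖deriv f z‖ ^ (p * x) * ‖deriv f z‖ ^ (t₀ * (1 - x)) =
            ‖deriv f z‖ ^ lam := by
          rw [← Real.rpow_add_of_nonneg hdz (by positivity) (by positivity), hlam]
          congr 1
          ring
        calc ‖deriv f z‖ ^ lam = (‖deriv f z‖ ^ (p * x) * ‖deriv f z‖ ^ (t₀ * (1 - x))) *
              ((1 + ‖f z‖) ^ (-b * x) * (1 + ‖f z‖) ^ (a * (1 - x))) := by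
                rw [e2, e3, mul_one]
          _ = _ := by ring
      have e4 := Real.geom_mean_le_arith_mean2_weighted hx0.le hv1.le (div_nonneg hP0 hA0.le)
        (div_nonneg hQ0 hB0.le) (by ring)
      rw [Real.div_rpow hP0 hA0.le, Real.div_rpow hQ0 hB0.le] at e4
      have hAv : 0 < A ^ x := by positivity
      have hBv : 0 < B ^ (1 - x) := by positivity
      rw [e1]
      have e5 : P ^ x * Q ^ (1 - x) =
          A ^ x * B ^ (1 - x) * (P ^ x / A ^ x * (Q ^ (1 - x) / B ^ (1 - x))) := by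
        field_simp
      rw [e5]
      refine (mul_le_mul_of_nonneg_left e4 (by positivity)).trans (le_of_eq ?_)
      simp only [smul_eq_mul]
      ring
  refine key.trans (le_of_eq ?_)
  rw [circleAverage_fun_add hIP.const_fun_smul hIQ.const_fun_smul, circleAverage_fun_smul,
    circleAverage_fun_smul, smul_eq_mul, smul_eq_mul]
  ring

/-- piece `BD-J`: interpolation.
Proof. First `ρ ≥ 1/2`. Let `C₁` be the constant of `p_area`, `C₂ = C₂(hQ)`, `δ = 1 - ρ`, `t = lam`,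
`P z = ‖f' z‖^p (1 + ‖f z‖)^(-b)`, `Q z = ‖f' z‖^t₀ (1 + ‖f z‖)^a`; `‖f' z‖^t = P^x Q^(1-x)` (`a (1-x) = b x`). Let
`A = δ^(-(3p - 2b - 1))`, `B = δ^(-(3t₀ + 2a - 1))`; weighted AM-GM (as in `JHold_small`, KP/JHold.lean):
`‖f'‖^t ≤ A^x B^(1-x) (x P/A + (1-x) Q/B)`, so for `r ∈ (ρ, (1+ρ)/2)`, with `m(·)` = circle averages over `|z| = r`:
`m_ρ(‖f'‖^t) ≤ m_r(‖f'‖^t) ≤ A^x B^(1-x) (x m_r(P)/A + (1-x) m_r(Q)/B)` (`rg_mono`, IM/RMono.lean), and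
`m_r(Q) ≤ C₂ (1-r)^(-(3t₀+2a-1)) ≤ C₂ 2^(3t₀+2a-1) B` (`1 - r ≥ δ/2`, the exponent `3 t₀ + 2 a - 1 > 0`). Hence
`c := (A/x) (m_ρ(‖f'‖^t) / (A^x B^(1-x)) - (1-x) C₂ 2^(..)) ≤ m_r(P)`. If `c ≤ 0` then `m_ρ(‖f'‖^t) ≤ C A^x B^(1-x)`.
Otherwise `ann_low` with `M = C₁ δ^(2-p-2(p-b))`: `c ≤ C₁ δ^(1-p-2(p-b)) = C₁ A`, so again
`m_ρ(‖f'‖^t) ≤ C A^x B^(1-x)`. `A^x B^(1-x) = δ^(-(3t-1))`:
`x (3p-2b-1) + (1-x)(3t₀+2a-1) = 3t - 1`. For `ρ < 1/2` use `rg_mono` (the mean at `ρ` is at most the mean at `1/2`) and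
`(1-ρ)^(-(3t-1)) ≥` a positive constant. -/
theorem interp {f : ℂ → ℂ} (hf : DifferentiableOn ℂ f (ball 0 1)) (hi : InjOn f (ball 0 1))
    {s p b t₀ a x lam : ℝ} (hs : 0 ≤ s) (hsp : s < p) (hp : p ≤ 2) (hb : 0 ≤ b) (hbp : b < p)
    (hE : BoxDim (frontier (f '' ball 0 1)) s) (ht : 0 ≤ t₀) (hx0 : 0 < x) (hx1 : x < 1)
    (ha : 0 < 3 * t₀ + 2 * a - 1) (hax : a * (1 - x) = b * x)
    (hlam : lam = t₀ * (1 - x) + p * x)
    (hQ : ∃ C : ℝ, 0 < C ∧ ∀ ρ : ℝ, 0 ≤ ρ → ρ < 1 →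
      circleAverage (fun z => ‖deriv f z‖ ^ t₀ * (1 + ‖f z‖) ^ a) 0 ρ ≤
        C * (1 - ρ) ^ (-(3 * t₀ + 2 * a - 1))) :
    ∃ C : ℝ, 0 < C ∧ ∀ ρ : ℝ, 0 ≤ ρ → ρ < 1 →
      circleAverage (fun z => ‖deriv f z‖ ^ lam) 0 ρ ≤ C * (1 - ρ) ^ (-(3 * lam - 1)) := by
  have hp0 : 0 < p := lt_of_le_of_lt hs hsp
  have hv1 : 0 < 1 - x := by linarith
  have hl0 : 0 < lam := by
    rw [hlam]
    have h1 : 0 ≤ t₀ * (1 - x) := by positivity
    have h2 : 0 < p * x := by positivity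
    linarith
  obtain ⟨C₁, hC₁, hP⟩ := p_area hf hi hs hsp hp hb hbp hE
  obtain ⟨C₂, hC₂, hQ⟩ := hQ
  obtain ⟨D, hD⟩ : ∃ D : ℝ, D = x * C₁ + (1 - x) * (C₂ * 2 ^ (3 * t₀ + 2 * a - 1)) := ⟨_, rfl⟩
  have hD0 : 0 < D := by rw [hD]; positivity
  obtain ⟨m, hm⟩ : ∃ m : ℝ → ℝ, m = fun r => circleAverage (fun z => ‖deriv f z‖ ^ lam) 0 r :=
    ⟨_, rfl⟩
  have hm' : ∀ r, circleAverage (fun z => ‖deriv f z‖ ^ lam) 0 r = m r := by
    intro r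
    rw [hm]
  -- large radii
  have large : ∀ ρ : ℝ, 1 / 2 ≤ ρ → ρ < 1 → m ρ ≤ D * (1 - ρ) ^ (-(3 * lam - 1)) := by
    intro ρ h0 h1
    have h1ρ : 0 < 1 - ρ := by linarith
    obtain ⟨A, hA⟩ : ∃ A : ℝ, A = (1 - ρ) ^ (-(3 * p - 2 * b - 1)) := ⟨_, rfl⟩
    obtain ⟨B, hB⟩ : ∃ B : ℝ, B = (1 - ρ) ^ (-(3 * t₀ + 2 * a - 1)) := ⟨_, rfl⟩
    have hA0 : 0 < A := by rw [hA]; positivity
    have hB0 : 0 < B := by rw [hB]; positivity
    obtain ⟨K, hK⟩ : ∃ K : ℝ, K = A ^ x * B ^ (1 - x) := ⟨_, rfl⟩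
    have hK0 : 0 < K := by rw [hK]; positivity
    obtain ⟨E, hEd⟩ : ∃ E : ℝ, E = C₂ * 2 ^ (3 * t₀ + 2 * a - 1) := ⟨_, rfl⟩
    have hmr : ∀ r ∈ Ioo ρ ((1 + ρ) / 2), m ρ ≤ K * (x / A *
        circleAverage (fun z => ‖deriv f z‖ ^ p * (1 + ‖f z‖) ^ (-b)) 0 r + (1 - x) * E) := by
      intro r hr
      have hr0 : 0 ≤ r := by linarith [hr.1]
      have hr1 : r < 1 := by linarith [hr.2]
      have e1 : m ρ ≤ m r := by
        rw [hm]
        exact rg_mono hf hi hl0 (by linarith) hr.1.le hr1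
      refine e1.trans ?_
      rw [hm]
      refine (bdJ_key hf hp0.le ht hx0 hx1 hax hlam hl0.le hA0 hB0 hr0 hr1).trans ?_
      rw [← hK]
      refine mul_le_mul_of_nonneg_left (add_le_add le_rfl ?_) hK0.le
      have e2 := hQ r hr0 hr1
      have e3 : (1 - r) ^ (-(3 * t₀ + 2 * a - 1)) ≤ 2 ^ (3 * t₀ + 2 * a - 1) * B := by
        have e4 : (1 - r) ^ (-(3 * t₀ + 2 * a - 1)) ≤
            ((1 - ρ) / 2) ^ (-(3 * t₀ + 2 * a - 1)) :=
          Real.rpow_le_rpow_of_nonpos (by linarith) (by linarith [hr.2]) (by linarith)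
        refine e4.trans (le_of_eq ?_)
        rw [hB, Real.div_rpow h1ρ.le (by norm_num), Real.rpow_neg (by norm_num : (0 : ℝ) ≤ 2)]
        field_simp
      have e5 : circleAverage (fun z => ‖deriv f z‖ ^ t₀ * (1 + ‖f z‖) ^ a) 0 r ≤ E * B := by
        refine e2.trans ((mul_le_mul_of_nonneg_left e3 hC₂.le).trans (le_of_eq ?_))
        rw [hEd]
        ring
      calc (1 - x) / B * circleAverage (fun z => ‖deriv f z‖ ^ t₀ * (1 + ‖f z‖) ^ a) 0 r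
          ≤ (1 - x) / B * (E * B) := mul_le_mul_of_nonneg_left e5 (by positivity)
        _ = (1 - x) * E := by field_simp
    have hnn : ∀ r ∈ Ioo ρ ((1 + ρ) / 2),
        0 ≤ circleAverage (fun z => ‖deriv f z‖ ^ p * (1 + ‖f z‖) ^ (-b)) 0 r := by
      intro r hr
      have hr0 : 0 ≤ r := by linarith [hr.1]
      have hr1 : r < 1 := by linarith [hr.2]
      exact circleAverage_nonneg_of_nonneg fun z _ => by positivity
    have hle : ∀ r ∈ Ioo ρ ((1 + ρ) / 2), max 0 (A / x * (m ρ / K - (1 - x) * E)) ≤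
        circleAverage (fun z => ‖deriv f z‖ ^ p * (1 + ‖f z‖) ^ (-b)) 0 r := by
      intro r hr
      refine max_le (hnn r hr) ?_
      have e1 := hmr r hr
      rw [mul_comm K, ← div_le_iff₀ hK0] at e1
      rw [div_mul_eq_mul_div, div_le_iff₀ hx0]
      have e2 : x / A * circleAverage (fun z => ‖deriv f z‖ ^ p * (1 + ‖f z‖) ^ (-b)) 0 r * A =
          circleAverage (fun z => ‖deriv f z‖ ^ p * (1 + ‖f z‖) ^ (-b)) 0 r * x := by
        field_simp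
      rw [← e2, mul_comm A]
      refine mul_le_mul_of_nonneg_right ?_ hA0.le
      linarith
    have hM0 : 0 ≤ C₁ * (1 - ρ) ^ (2 - p - 2 * (p - b)) := by positivity
    have hfin := ann_low hf hp0.le h0 h1 (le_max_left _ _) hle hM0 (hP ρ (by linarith) h1)
    have hfin2 : A / x * (m ρ / K - (1 - x) * E) * (1 - ρ) ≤
        C₁ * (1 - ρ) ^ (2 - p - 2 * (p - b)) :=
      (mul_le_mul_of_nonneg_right (le_max_right _ _) h1ρ.le).trans hfin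
    have e6 : (1 - ρ) ^ (2 - p - 2 * (p - b)) = A * (1 - ρ) := by
      rw [hA]
      nth_rewrite 3 [← Real.rpow_one (1 - ρ)]
      rw [← Real.rpow_add h1ρ]
      congr 1
      ring
    rw [e6] at hfin2
    have hfin3 : A / x * (m ρ / K - (1 - x) * E) ≤ C₁ * A := by
      have : A / x * (m ρ / K - (1 - x) * E) * (1 - ρ) ≤ C₁ * A * (1 - ρ) := by
        rw [mul_assoc C₁]
        exact hfin2
      exact le_of_mul_le_mul_right this h1ρ
    have hfin4 : m ρ / K ≤ D := by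
      have e7 : A / x * (m ρ / K - (1 - x) * E) = A * ((m ρ / K - (1 - x) * E) / x) := by
        ring
      rw [e7, mul_comm C₁] at hfin3
      have e8 := le_of_mul_le_mul_left hfin3 hA0
      rw [div_le_iff₀ hx0] at e8
      rw [hD, ← hEd]
      linarith
    rw [div_le_iff₀ hK0] at hfin4
    have e9 : K = (1 - ρ) ^ (-(3 * lam - 1)) := by
      rw [hK, hA, hB, ← Real.rpow_mul h1ρ.le, ← Real.rpow_mul h1ρ.le, ← Real.rpow_add h1ρ]
      congr 1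
      have h3 : -(3 * p - 2 * b - 1) * x + -(3 * t₀ + 2 * a - 1) * (1 - x) =
          -(3 * p - 1) * x + 2 * (b * x) - (3 * t₀ - 1) * (1 - x) - 2 * (a * (1 - x)) := by ring
      rw [h3, hax, hlam]
      ring
    rw [← e9]
    exact hfin4
  obtain ⟨e, he⟩ : ∃ e : ℝ, e = 3 * lam - 1 := ⟨_, rfl⟩
  have hmh : 0 ≤ m (1 / 2) := by
    rw [hm]
    exact circleAverage_nonneg_of_nonneg fun z _ => by positivity
  refine ⟨D + m (1 / 2) * 2 ^ |e|, by positivity, fun ρ h0 h1 => ?_⟩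
  rw [hm', ← he]
  have h1ρ : 0 < 1 - ρ := by linarith
  have hδ : 0 < (1 - ρ) ^ (-e) := by positivity
  rcases le_or_gt (1 / 2) ρ with h2 | h2
  · have h3 := large ρ h2 h1
    rw [← he] at h3
    refine h3.trans (mul_le_mul_of_nonneg_right ?_ hδ.le)
    have : 0 ≤ m (1 / 2) * 2 ^ |e| := by positivity
    linarith
  · have e1 : m ρ ≤ m (1 / 2) := by
      rw [hm]
      exact rg_mono hf hi hl0 h0 h2.le (by norm_num)
    have e2 : (1 / 2 : ℝ) ^ |e| ≤ (1 - ρ) ^ (-e) :=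
      (Real.rpow_le_rpow (by norm_num) (by linarith) (abs_nonneg e)).trans
        (Real.rpow_le_rpow_of_exponent_ge h1ρ (by linarith) (neg_le_abs e))
    have e3 : m (1 / 2) = m (1 / 2) * 2 ^ |e| * (1 / 2 : ℝ) ^ |e| := by
      rw [mul_assoc, ← Real.mul_rpow (by norm_num) (by norm_num)]
      norm_num
    calc m ρ ≤ m (1 / 2) := e1
      _ = m (1 / 2) * 2 ^ |e| * (1 / 2 : ℝ) ^ |e| := e3
      _ ≤ m (1 / 2) * 2 ^ |e| * (1 - ρ) ^ (-e) := mul_le_mul_of_nonneg_left e2 (by positivity)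
      _ ≤ (D + m (1 / 2) * 2 ^ |e|) * (1 - ρ) ^ (-e) :=
        mul_le_mul_of_nonneg_right (by linarith) hδ.le

end Pool.Agent.Helper41.BD
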