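import Mathlib

/-! # BD: box dimension of the boundary and integrals of powers of the distance -/

set_option autoImplicit false

namespace Pool.Agent.Helper41.BD

open Metric Set MeasureTheory

/-- box-type dimension at most `s`: for every `ε > 0` the part of `E` in the disc of radius `R ≥ 1` is covered by
`C (R / ρ) ^ (s + ε)` discs of radius `ρ ≤ R` -/
def BoxDim (E : Set ℂ) (s : ℝ) : Prop :=
  ∀ ε : ℝ, 0 < ε → ∃ C : ℝ, ∀ R ρ : ℝ, 1 ≤ R → 0 < ρ → ρ ≤ R →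
    ∃ T : Finset ℂ, (T.card : ℝ) ≤ C * (R / ρ) ^ (s + ε) ∧
      E ∩ closedBall 0 R ⊆ ⋃ c ∈ T, closedBall c ρ

private theorem bdA_vol {Ω : Set ℂ} (ho : IsOpen Ω) (hc : Ωᶜ.Nonempty) {R ρ R' : ℝ}
    (hρ : 0 ≤ ρ) (hR' : R + ρ ≤ R') (T : Finset ℂ)
    (hT : frontier Ω ∩ closedBall 0 R' ⊆ ⋃ c ∈ T, closedBall c ρ) :
    volume {v | v ∈ Ω ∩ closedBall 0 R ∧ infDist v Ωᶜ ≤ ρ} ≤
      ENNReal.ofReal (T.card * (2 * ρ) ^ 2 * Real.pi) := by
  have hsub : {v | v ∈ Ω ∩ closedBall 0 R ∧ infDist v Ωᶜ ≤ ρ} ⊆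
      ⋃ c ∈ T, closedBall c (2 * ρ) := by
    rintro v ⟨⟨hvΩ, hvR⟩, hvρ⟩
    have hcl : IsClosed Ωᶜ := ho.isClosed_compl
    obtain ⟨e, he, hde⟩ := hcl.exists_infDist_eq_dist hc v
    have hpos : 0 < infDist v Ωᶜ :=
      (hcl.notMem_iff_infDist_pos hc).1 (fun h => h hvΩ)
    have hfr : e ∈ frontier Ω := by
      rw [ho.frontier_eq]
      refine ⟨?_, he⟩
      have h1 : ball v (infDist v Ωᶜ) ⊆ Ω := ball_infDist_compl_subset
      have h2 : e ∈ closure (ball v (infDist v Ωᶜ)) := by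
        rw [closure_ball v hpos.ne', mem_closedBall, dist_comm, hde]
      exact closure_mono h1 h2
    have heR : e ∈ closedBall (0 : ℂ) R' := by
      rw [mem_closedBall] at hvR ⊢
      calc dist e 0 ≤ dist e v + dist v 0 := dist_triangle _ _ _
        _ ≤ ρ + R := by
          rw [dist_comm e v, ← hde]
          exact add_le_add hvρ hvR
        _ ≤ R' := by linarith
    obtain ⟨c, hc1, hc2⟩ := mem_iUnion₂.1 (hT ⟨hfr, heR⟩)
    refine mem_iUnion₂.2 ⟨c, hc1, ?_⟩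
    rw [mem_closedBall] at hc2 ⊢
    calc dist v c ≤ dist v e + dist e c := dist_triangle _ _ _
      _ ≤ ρ + ρ := by
        rw [← hde]
        exact add_le_add hvρ hc2
      _ = 2 * ρ := by ring
  have hpi : (NNReal.pi : ENNReal) = ENNReal.ofReal Real.pi := by
    rw [← NNReal.coe_real_pi, ENNReal.ofReal_coe_nnreal]
  calc volume {v | v ∈ Ω ∩ closedBall 0 R ∧ infDist v Ωᶜ ≤ ρ}
      ≤ volume (⋃ c ∈ T, closedBall c (2 * ρ)) := measure_mono hsub
    _ ≤ ∑ c ∈ T, volume (closedBall c (2 * ρ)) := measure_biUnion_finset_le T _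
    _ = ∑ c ∈ T, ENNReal.ofReal ((2 * ρ) ^ 2 * Real.pi) := by
      refine Finset.sum_congr rfl fun c _ => ?_
      rw [Complex.volume_closedBall, hpi,
        ENNReal.ofReal_mul (p := (2 * ρ) ^ 2) (q := Real.pi) (by positivity),
        ENNReal.ofReal_pow (p := 2 * ρ) (by positivity)]
    _ = ENNReal.ofReal (T.card * (2 * ρ) ^ 2 * Real.pi) := by
      rw [Finset.sum_const, nsmul_eq_mul, mul_assoc (T.card : ℝ),
        ENNReal.ofReal_mul (p := (T.card : ℝ)) (by positivity), ENNReal.ofReal_natCast]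

private theorem bdA_real {D R t C p s' : ℝ} (hD : 0 < D) (hR : 0 < R) (ht : 0 < t) :
    (D * R / t / 2) ^ (p - 2) * (C * ((1 + D) * R / (D * R / t)) ^ s' * (2 * (D * R / t)) ^ 2 *
      Real.pi) =
      (2 : ℝ) ^ (2 - p) * (4 * Real.pi) * C * ((1 + D) / D) ^ s' * D ^ p * R ^ p *
        t ^ (-(p - s')) := by
  have hρ : 0 < D * R / t := by positivity
  have e1 : (D * R / t / 2) ^ (p - 2) = (D * R / t) ^ (p - 2) * (2 : ℝ) ^ (2 - p) := by
    rw [Real.div_rpow hρ.le (by norm_num), div_eq_mul_inv, ← Real.rpow_neg (by norm_num)]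
    congr 2
    ring
  have e2 : (D * R / t) ^ (p - 2) * (D * R / t) ^ 2 = (D * R / t) ^ p := by
    rw [← Real.rpow_natCast (D * R / t) 2, ← Real.rpow_add hρ]
    congr 1
    push_cast
    ring
  have e3 : (D * R / t) ^ p = D ^ p * R ^ p * t ^ (-p) := by
    rw [Real.div_rpow (by positivity) ht.le, Real.mul_rpow hD.le hR.le, div_eq_mul_inv,
      ← Real.rpow_neg ht.le]
  have e4 : (1 + D) * R / (D * R / t) = (1 + D) / D * t := by
    field_simp
  have e5 : ((1 + D) / D * t) ^ s' = ((1 + D) / D) ^ s' * t ^ s' :=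
    Real.mul_rpow (by positivity) ht.le
  have e6 : t ^ (-(p - s')) = t ^ (-p) * t ^ s' := by
    rw [← Real.rpow_add ht]
    congr 1
    ring
  rw [e1, e4, e5, e6]
  calc (D * R / t) ^ (p - 2) * 2 ^ (2 - p) *
        (C * (((1 + D) / D) ^ s' * t ^ s') * (2 * (D * R / t)) ^ 2 * Real.pi)
      = 2 ^ (2 - p) * (4 * Real.pi) * C * ((1 + D) / D) ^ s' * t ^ s' *
        ((D * R / t) ^ (p - 2) * (D * R / t) ^ 2) := by ring
    _ = _ := by
      rw [e2, e3]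
      ring

private theorem bdA_pow (k : ℕ) (a : ℝ) : ((2 : ℝ) ^ k) ^ a = ((2 : ℝ) ^ a) ^ k := by
  rw [← Real.rpow_natCast, ← Real.rpow_mul (by norm_num), mul_comm, Real.rpow_mul (by norm_num),
    Real.rpow_natCast]

/-- piece `BD-A`. Proof. `ε := (p - s)/2`, `C₀ > 0` a constant from `hE ε` (take `max C₀ 1`). `D := 1 + infDist 0 Ωᶜ`, so
`infDist v Ωᶜ ≤ D * R` for `‖v‖ ≤ R`, `R ≥ 1` (`infDist_le_infDist_add_dist`), and `infDist v Ωᶜ > 0` for
`v ∈ Ω` (`IsOpen`, `Ωᶜ` closed nonempty). Let `ρ_k = D R 2^(-k)`,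
`T_k = {v ∈ Ω ∩ closedBall 0 R | ρ_k / 2 < infDist v Ωᶜ ≤ ρ_k}`; these sets cover `Ω ∩ closedBall 0 R`
(`exists_nat_pow_near` or similar), so the integral is at most `∑' k, ∫⁻ v in T_k, ...`
(`lintegral_iUnion_le`, `lintegral_mono_set`). On `T_k` the integrand is `≤ (ρ_k / 2) ^ (p - 2)` (`p ≤ 2`), so the
integral over `T_k` is at most this times `volume T_k`. For `v ∈ T_k` there is `e ∈ Ωᶜ` with `dist v e = infDist v Ωᶜ`
(`IsClosed.exists_infDist_eq_dist`), and in fact `e ∈ frontier Ω` (the segment from `v` to `e` lies in `Ω` except `e`; or: the ball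
`ball v (infDist v Ωᶜ)` is contained in `Ω` and `e` is in its closure); `‖e‖ ≤ R + D R`. So with the cover `T` of
`frontier Ω ∩ closedBall 0 ((1 + D) R)` by discs of radius `ρ_k ≤ (1 + D) R`, `T_k ⊆ ⋃ c ∈ T, closedBall c (2 ρ_k)`,
`volume T_k ≤ card T * π * (2 ρ_k)^2 ≤ C₀ ((1 + D) R / ρ_k) ^ (s + ε) * π * 4 * ρ_k ^ 2`
(`measure_biUnion_finset_le`, `Complex.volume_closedBall`). The `k`-th term is `C₁ R^p * (2^(-(p - s - ε)))^k`, the
geometric series converges (`ENNReal.ofReal_tsum_of_nonneg`, `tsum_geometric_of_lt_one`). -/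
theorem cov1 {Ω : Set ℂ} (ho : IsOpen Ω) (hc : Ωᶜ.Nonempty) {s p : ℝ} (hs : 0 ≤ s) (hsp : s < p)
    (hp : p ≤ 2) (hE : BoxDim (frontier Ω) s) :
    ∃ C : ℝ, 0 < C ∧ ∀ R : ℝ, 1 ≤ R →
      ∫⁻ v in Ω ∩ closedBall 0 R, ENNReal.ofReal (infDist v Ωᶜ ^ (p - 2)) ≤
        ENNReal.ofReal (C * R ^ p) := by
  obtain ⟨ε, hε⟩ : ∃ ε : ℝ, ε = (p - s) / 2 := ⟨_, rfl⟩
  have hε0 : 0 < ε := by rw [hε]; linarith
  have hε1 : 0 < p - (s + ε) := by rw [hε]; linarith
  obtain ⟨C₀, hC₀⟩ := hE ε hε0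
  obtain ⟨C₁, hC₁⟩ : ∃ C₁ : ℝ, C₁ = max C₀ 1 := ⟨_, rfl⟩
  have hC₁0 : 0 < C₁ := by rw [hC₁]; exact lt_max_of_lt_right one_pos
  have hC₀₁ : C₀ ≤ C₁ := by rw [hC₁]; exact le_max_left _ _
  obtain ⟨D, hD⟩ : ∃ D : ℝ, D = 1 + infDist 0 Ωᶜ := ⟨_, rfl⟩
  have hD1 : 1 ≤ D := by
    rw [hD]
    linarith [infDist_nonneg (x := (0 : ℂ)) (s := Ωᶜ)]
  have hD0 : 0 < D := by linarith
  obtain ⟨x, hx⟩ : ∃ x : ℝ, x = (2 : ℝ) ^ (-(p - (s + ε))) := ⟨_, rfl⟩
  have hx0 : 0 < x := by rw [hx]; positivity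
  have hx1 : x < 1 := by
    rw [hx]
    exact Real.rpow_lt_one_of_one_lt_of_neg (by norm_num) (by linarith)
  obtain ⟨K, hK⟩ : ∃ K : ℝ, K = (2 : ℝ) ^ (2 - p) * (4 * Real.pi) * C₁ *
      ((1 + D) / D) ^ (s + ε) * D ^ p := ⟨_, rfl⟩
  have hK0 : 0 < K := by rw [hK]; positivity
  refine ⟨K / (1 - x), div_pos hK0 (by linarith), fun R hR => ?_⟩
  have hR0 : 0 < R := by linarith
  have hcl : IsClosed Ωᶜ := ho.isClosed_compl
  -- the layers
  obtain ⟨ρ, hρ⟩ : ∃ ρ : ℕ → ℝ, ∀ k, ρ k = D * R / (2 : ℝ) ^ k := ⟨_, fun k => rfl⟩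
  have hρ0 : ∀ k, 0 < ρ k := by
    intro k
    rw [hρ]
    positivity
  have hρ1 : ∀ k, ρ k ≤ D * R := by
    intro k
    rw [hρ]
    exact div_le_self (by positivity) (one_le_pow₀ (by norm_num))
  let T : ℕ → Set ℂ := fun k =>
    {v | v ∈ Ω ∩ closedBall 0 R ∧ infDist v Ωᶜ ≤ ρ k} ∩ {v | ρ k / 2 < infDist v Ωᶜ}
  have hcont : Continuous fun v : ℂ => infDist v Ωᶜ := continuous_infDist_pt _
  have hTm : ∀ k, MeasurableSet (T k) := by
    intro k
    refine MeasurableSet.inter ?_ (isOpen_lt continuous_const hcont).measurableSet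
    exact (ho.measurableSet.inter isClosed_closedBall.measurableSet).inter
      (isClosed_le hcont continuous_const).measurableSet
  have hcover : Ω ∩ closedBall 0 R ⊆ ⋃ k, T k := by
    intro v hv
    have hpos : 0 < infDist v Ωᶜ := (hcl.notMem_iff_infDist_pos hc).1 (fun h => h hv.1)
    have hle : infDist v Ωᶜ ≤ D * R := by
      have h1 : infDist v Ωᶜ ≤ infDist 0 Ωᶜ + dist v 0 := infDist_le_infDist_add_dist
      have h2 : dist v 0 ≤ R := hv.2
      have h3 : infDist (0 : ℂ) Ωᶜ = D - 1 := by rw [hD]; ring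
      rw [h3] at h1
      nlinarith
    obtain ⟨n, hn1, hn2⟩ := exists_nat_pow_near (x := D * R / infDist v Ωᶜ) (y := 2)
      ((one_le_div hpos).2 hle) (by norm_num)
    refine mem_iUnion.2 ⟨n, ⟨hv, ?_⟩, ?_⟩
    · rw [hρ, le_div_iff₀ (by positivity)]
      rw [le_div_iff₀ hpos] at hn1
      linarith
    · show ρ n / 2 < infDist v Ωᶜ
      rw [div_lt_iff₀ hpos] at hn2
      rw [hρ, div_div, div_lt_iff₀ (by positivity), ← pow_succ]
      linarith
  have hterm : ∀ k, ∫⁻ v in T k, ENNReal.ofReal (infDist v Ωᶜ ^ (p - 2)) ≤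
      ENNReal.ofReal (K * R ^ p * x ^ k) := by
    intro k
    obtain ⟨F, hF1, hF2⟩ := hC₀ ((1 + D) * R) (ρ k) (by nlinarith) (hρ0 k)
      ((hρ1 k).trans (by nlinarith))
    have hvol := bdA_vol ho hc (R := R) (R' := (1 + D) * R) (hρ0 k).le
      (by linarith [hρ1 k]) F hF2
    have h1 : ∫⁻ v in T k, ENNReal.ofReal (infDist v Ωᶜ ^ (p - 2)) ≤
        ∫⁻ _ in T k, ENNReal.ofReal ((ρ k / 2) ^ (p - 2)) := by
      refine setLIntegral_mono' (hTm k) fun v hv => ?_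
      refine ENNReal.ofReal_le_ofReal ?_
      exact Real.rpow_le_rpow_of_nonpos (by linarith [hρ0 k]) (le_of_lt hv.2) (by linarith)
    rw [setLIntegral_const] at h1
    have h2 : volume (T k) ≤ ENNReal.ofReal (F.card * (2 * ρ k) ^ 2 * Real.pi) :=
      (measure_mono inter_subset_left).trans hvol
    have h3 : (F.card : ℝ) * (2 * ρ k) ^ 2 * Real.pi ≤
        C₁ * ((1 + D) * R / ρ k) ^ (s + ε) * (2 * ρ k) ^ 2 * Real.pi := by
      have h4 : (F.card : ℝ) ≤ C₁ * ((1 + D) * R / ρ k) ^ (s + ε) := by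
        refine hF1.trans (mul_le_mul_of_nonneg_right hC₀₁ ?_)
        have := hρ0 k
        positivity
      have h5 : (0 : ℝ) ≤ (2 * ρ k) ^ 2 * Real.pi := by positivity
      have h6 := mul_le_mul_of_nonneg_right h4 h5
      linarith
    calc ∫⁻ v in T k, ENNReal.ofReal (infDist v Ωᶜ ^ (p - 2))
        ≤ ENNReal.ofReal ((ρ k / 2) ^ (p - 2)) * volume (T k) := h1
      _ ≤ ENNReal.ofReal ((ρ k / 2) ^ (p - 2)) *
          ENNReal.ofReal (C₁ * ((1 + D) * R / ρ k) ^ (s + ε) * (2 * ρ k) ^ 2 * Real.pi) := by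
        gcongr
        exact h2.trans (ENNReal.ofReal_le_ofReal h3)
      _ = ENNReal.ofReal (K * R ^ p * x ^ k) := by
        rw [← ENNReal.ofReal_mul (by have := hρ0 k; positivity), hρ,
          bdA_real hD0 hR0 (by positivity), bdA_pow, hK, hx]
  calc ∫⁻ v in Ω ∩ closedBall 0 R, ENNReal.ofReal (infDist v Ωᶜ ^ (p - 2))
      ≤ ∫⁻ v in ⋃ k, T k, ENNReal.ofReal (infDist v Ωᶜ ^ (p - 2)) := lintegral_mono_set hcover
    _ ≤ ∑' k, ∫⁻ v in T k, ENNReal.ofReal (infDist v Ωᶜ ^ (p - 2)) := lintegral_iUnion_le _ _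
    _ ≤ ∑' k, ENNReal.ofReal (K * R ^ p * x ^ k) := ENNReal.tsum_le_tsum hterm
    _ = ENNReal.ofReal (∑' k, K * R ^ p * x ^ k) := by
      refine (ENNReal.ofReal_tsum_of_nonneg (fun k => by positivity) ?_).symm
      exact (summable_geometric_of_lt_one hx0.le hx1).mul_left _
    _ = ENNReal.ofReal (K / (1 - x) * R ^ p) := by
      rw [tsum_mul_left, tsum_geometric_of_lt_one hx0.le hx1]
      congr 1
      ring

/-- piece `BD-B`. Proof. Let `C₁` be the constant of `cov1`, `J R` the integral on the left. For `n : ℕ`,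
`J (2^(n+1)) ≤ J (2^n) + (1 + 2^n)^(-b) * ∫⁻ v in Ω ∩ closedBall 0 (2^(n+1)), infDist v Ωᶜ ^ (p - 2)
≤ J (2^n) + C₁ * 2^p * 2^((p-b) n)` (split `closedBall 0 (2^(n+1))` at `‖v‖ = 2^n`; outside `(1 + ‖v‖)^(-b) ≤ (2^n)^(-b)`,
`b ≥ 0`). By induction `J (2^n) ≤ C' 2^((p-b) n)` with `C' := max C₁ (C₁ 2^p / (2^(p-b) - 1))`. For
`R ≥ 1` choose `n` with `2^n ≤ R < 2^(n+1)` (`exists_nat_pow_near`), `J R ≤ J (2^(n+1)) ≤ C' 2^(p-b) R^(p-b)`. -/
theorem cov2 {Ω : Set ℂ} (ho : IsOpen Ω) (hc : Ωᶜ.Nonempty) {s p b : ℝ} (hs : 0 ≤ s) (hsp : s < p)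
    (hp : p ≤ 2) (hb : 0 ≤ b) (hbp : b < p) (hE : BoxDim (frontier Ω) s) :
    ∃ C : ℝ, 0 < C ∧ ∀ R : ℝ, 1 ≤ R →
      ∫⁻ v in Ω ∩ closedBall 0 R, ENNReal.ofReal (infDist v Ωᶜ ^ (p - 2) * (1 + ‖v‖) ^ (-b)) ≤
        ENNReal.ofReal (C * R ^ (p - b)) := by
  obtain ⟨C₁, hC₁, h1⟩ := cov1 ho hc hs hsp hp hE
  set x : ℝ := (2 : ℝ) ^ (p - b) with hx
  have hx1 : 1 < x := Real.one_lt_rpow (by norm_num) (by linarith)
  have hx0 : 0 < x := by linarith
  have hxn : ∀ n : ℕ, ((2 : ℝ) ^ n) ^ (p - b) = x ^ n := by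
    intro n
    rw [hx, ← Real.rpow_natCast, ← Real.rpow_natCast, ← Real.rpow_mul (by norm_num),
      ← Real.rpow_mul (by norm_num), mul_comm]
  set C' : ℝ := max C₁ (C₁ * 2 ^ p / (x - 1)) with hC'
  have hC'1 : C₁ ≤ C' := le_max_left _ _
  have hC'0 : 0 < C' := hC₁.trans_le hC'1
  have hC'2 : C₁ * 2 ^ p ≤ C' * (x - 1) := by
    rw [← div_le_iff₀ (by linarith)]
    exact le_max_right _ _
  have hbase : ∀ v : ℂ, infDist v Ωᶜ ^ (p - 2) * (1 + ‖v‖) ^ (-b) ≤ infDist v Ωᶜ ^ (p - 2) := by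
    intro v
    have h2 : (1 + ‖v‖) ^ (-b) ≤ 1 :=
      Real.rpow_le_one_of_one_le_of_nonpos (by linarith [norm_nonneg v]) (by linarith)
    have h3 : 0 ≤ infDist v Ωᶜ ^ (p - 2) := Real.rpow_nonneg infDist_nonneg _
    nlinarith
  have key : ∀ n : ℕ, ∫⁻ v in Ω ∩ closedBall 0 ((2 : ℝ) ^ n),
      ENNReal.ofReal (infDist v Ωᶜ ^ (p - 2) * (1 + ‖v‖) ^ (-b)) ≤
        ENNReal.ofReal (C' * x ^ n) := by
    intro n
    induction n with
    | zero =>
      have h2 := h1 1 le_rfl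
      rw [Real.one_rpow, mul_one] at h2
      rw [pow_zero, pow_zero, mul_one]
      refine (lintegral_mono fun v => ENNReal.ofReal_le_ofReal (hbase v)).trans (h2.trans ?_)
      exact ENNReal.ofReal_le_ofReal hC'1
    | succ n ih =>
      have hsub : Ω ∩ closedBall (0 : ℂ) ((2 : ℝ) ^ (n + 1)) ⊆
          (Ω ∩ closedBall 0 ((2 : ℝ) ^ n)) ∪
            ((Ω ∩ closedBall 0 ((2 : ℝ) ^ (n + 1))) \ closedBall 0 ((2 : ℝ) ^ n)) := by
        intro v hv
        by_cases h2 : v ∈ closedBall (0 : ℂ) ((2 : ℝ) ^ n)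
        · exact Or.inl ⟨hv.1, h2⟩
        · exact Or.inr ⟨hv, h2⟩
      have hm : MeasurableSet ((Ω ∩ closedBall (0 : ℂ) ((2 : ℝ) ^ (n + 1))) \
          closedBall 0 ((2 : ℝ) ^ n)) :=
        (ho.measurableSet.inter measurableSet_closedBall).diff measurableSet_closedBall
      have hout : ∫⁻ v in (Ω ∩ closedBall (0 : ℂ) ((2 : ℝ) ^ (n + 1))) \
          closedBall 0 ((2 : ℝ) ^ n),
          ENNReal.ofReal (infDist v Ωᶜ ^ (p - 2) * (1 + ‖v‖) ^ (-b)) ≤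
          ENNReal.ofReal (C₁ * 2 ^ p * x ^ n) := by
        have h2 : (0 : ℝ) < 2 ^ n := by positivity
        have h3 : (0 : ℝ) ≤ ((2 : ℝ) ^ n) ^ (-b) := Real.rpow_nonneg h2.le _
        calc _ ≤ ∫⁻ v in (Ω ∩ closedBall (0 : ℂ) ((2 : ℝ) ^ (n + 1))) \
              closedBall 0 ((2 : ℝ) ^ n), ENNReal.ofReal (((2 : ℝ) ^ n) ^ (-b)) *
                ENNReal.ofReal (infDist v Ωᶜ ^ (p - 2)) := by
              refine setLIntegral_mono' hm fun v hv => ?_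
              rw [← ENNReal.ofReal_mul h3]
              refine ENNReal.ofReal_le_ofReal ?_
              have h4 : (2 : ℝ) ^ n ≤ 1 + ‖v‖ := by
                have h5 : ¬ ‖v‖ ≤ (2 : ℝ) ^ n := fun h6 => hv.2 (mem_closedBall_zero_iff.2 h6)
                linarith
              have h5 : (1 + ‖v‖) ^ (-b) ≤ ((2 : ℝ) ^ n) ^ (-b) :=
                Real.rpow_le_rpow_of_nonpos h2 h4 (by linarith)
              rw [mul_comm]
              exact mul_le_mul_of_nonneg_right h5 (Real.rpow_nonneg infDist_nonneg _)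
          _ = ENNReal.ofReal (((2 : ℝ) ^ n) ^ (-b)) *
              ∫⁻ v in (Ω ∩ closedBall (0 : ℂ) ((2 : ℝ) ^ (n + 1))) \
              closedBall 0 ((2 : ℝ) ^ n), ENNReal.ofReal (infDist v Ωᶜ ^ (p - 2)) :=
              lintegral_const_mul' _ _ ENNReal.ofReal_ne_top
          _ ≤ ENNReal.ofReal (((2 : ℝ) ^ n) ^ (-b)) *
              ENNReal.ofReal (C₁ * ((2 : ℝ) ^ (n + 1)) ^ p) := by
              refine mul_le_mul_right ?_ _
              exact (lintegral_mono_set diff_subset).trans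
                (h1 _ (one_le_pow₀ (by norm_num)))
          _ = ENNReal.ofReal (C₁ * 2 ^ p * x ^ n) := by
              rw [← ENNReal.ofReal_mul h3]
              congr 1
              have h6 : ((2 : ℝ) ^ (n + 1)) ^ p = 2 ^ p * ((2 : ℝ) ^ n) ^ p := by
                rw [pow_succ, mul_comm, Real.mul_rpow (by norm_num) h2.le]
              have h7 : x ^ n = ((2 : ℝ) ^ n) ^ p * ((2 : ℝ) ^ n) ^ (-b) := by
                rw [← hxn, sub_eq_add_neg, Real.rpow_add h2]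
              rw [h6, h7]
              ring
      calc _ ≤ ∫⁻ v in (Ω ∩ closedBall 0 ((2 : ℝ) ^ n)) ∪
            ((Ω ∩ closedBall 0 ((2 : ℝ) ^ (n + 1))) \ closedBall 0 ((2 : ℝ) ^ n)),
            ENNReal.ofReal (infDist v Ωᶜ ^ (p - 2) * (1 + ‖v‖) ^ (-b)) :=
            lintegral_mono_set hsub
        _ ≤ _ := lintegral_union_le _ _ _
        _ ≤ ENNReal.ofReal (C' * x ^ n) + ENNReal.ofReal (C₁ * 2 ^ p * x ^ n) :=
            add_le_add ih hout
        _ = ENNReal.ofReal (C' * x ^ n + C₁ * 2 ^ p * x ^ n) :=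
            (ENNReal.ofReal_add (by positivity) (by positivity)).symm
        _ ≤ ENNReal.ofReal (C' * x ^ (n + 1)) := by
            refine ENNReal.ofReal_le_ofReal ?_
            have h8 : (0 : ℝ) ≤ x ^ n := by positivity
            have h9 := mul_le_mul_of_nonneg_right hC'2 h8
            rw [pow_succ]
            nlinarith
  refine ⟨C' * x, by positivity, fun R hR => ?_⟩
  obtain ⟨n, hn1, hn2⟩ := exists_nat_pow_near hR (by norm_num : (1 : ℝ) < 2)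
  have h2 : Ω ∩ closedBall (0 : ℂ) R ⊆ Ω ∩ closedBall 0 ((2 : ℝ) ^ (n + 1)) :=
    inter_subset_inter_right _ (closedBall_subset_closedBall hn2.le)
  refine (lintegral_mono_set h2).trans ((key (n + 1)).trans (ENNReal.ofReal_le_ofReal ?_))
  have h3 : x ^ n ≤ R ^ (p - b) := by
    rw [← hxn]
    exact Real.rpow_le_rpow (by positivity) hn1 (by linarith)
  rw [pow_succ]
  have h4 : C' * x * x ^ n ≤ C' * x * R ^ (p - b) := mul_le_mul_of_nonneg_left h3 (by positivity)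
  linarith

end Pool.Agent.Helper41.BD
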