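import Pool.Agent.Helper41.BD.Cov
import Pool.Agent.Helper21.KP.KLow

/-! # BD: the boundary of the Koebe domain -/

set_option autoImplicit false

namespace Pool.Agent.Helper41.BD

open Metric Set
open Pool.Agent.Helper21.KP

private theorem bdG_root (w : ℂ) (hw : w.im ≠ 0) : ∃ z ∈ ball (0 : ℂ) 1, kb z = w := by
  have hw0 : w ≠ 0 := by
    intro h
    rw [h] at hw
    exact hw rfl
  set t : ℂ := 2 + 1 / w with ht
  have htim : t.im ≠ 0 := by
    rw [ht, one_div, Complex.add_im, Complex.inv_im]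
    have h1 : Complex.normSq w ≠ 0 := by
      rw [Ne, Complex.normSq_eq_zero]
      exact hw0
    simp only [Complex.im_ofNat, zero_add]
    exact div_ne_zero (neg_ne_zero.mpr hw) h1
  obtain ⟨z₁, hz₁⟩ : ∃ z : ℂ, z ^ 2 - t * z + 1 = 0 := by
    obtain ⟨d, hd⟩ := IsAlgClosed.exists_pow_nat_eq (t ^ 2 - 4) (n := 2) (by norm_num)
    refine ⟨(t + d) / 2, ?_⟩
    linear_combination hd / 4
  have hz₁0 : z₁ ≠ 0 := by
    intro h
    rw [h] at hz₁
    norm_num at hz₁
  have hn1 : ‖z₁‖ ≠ 1 := by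
    intro h
    have h1 : z₁ * (starRingEnd ℂ) z₁ = 1 := by
      rw [Complex.mul_conj, Complex.normSq_eq_norm_sq, h]
      norm_num
    have h2 : t = z₁ + (starRingEnd ℂ) z₁ := by
      have h3 : z₁ * (t - (z₁ + (starRingEnd ℂ) z₁)) = 0 := by
        linear_combination -hz₁ - h1
      rcases mul_eq_zero.mp h3 with h4 | h4
      · exact absurd h4 hz₁0
      · exact sub_eq_zero.mp h4
    apply htim
    rw [h2, Complex.add_im, Complex.conj_im]
    ring
  obtain ⟨z, hz, hz0, hzn⟩ : ∃ z : ℂ, z ^ 2 - t * z + 1 = 0 ∧ z ≠ 0 ∧ ‖z‖ < 1 := by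
    rcases lt_or_gt_of_ne hn1 with h | h
    · exact ⟨z₁, hz₁, hz₁0, h⟩
    · refine ⟨z₁⁻¹, ?_, inv_ne_zero hz₁0, ?_⟩
      · have h1 : z₁⁻¹ * z₁ = 1 := inv_mul_cancel₀ hz₁0
        linear_combination (z₁⁻¹) ^ 2 * hz₁ + (t * z₁⁻¹ - z₁⁻¹ * z₁ - 1) * h1
      · rw [norm_inv]
        exact inv_lt_one_of_one_lt₀ h
  refine ⟨z, by simpa using hzn, ?_⟩
  have h1 : (1 - z) ^ 2 * w = z := by
    have h2 : (t - 2) * w = 1 := by
      rw [ht]
      field_simp
      ring
    linear_combination w * hz + z * h2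
  have h3 : (1 - z) ^ 2 ≠ 0 := by
    intro h4
    rw [h4, zero_mul] at h1
    exact hz0 h1.symm
  unfold kb
  rw [div_eq_iff h3, mul_comm]
  exact h1.symm

/-- piece `BD-G`: the frontier of the Koebe domain is a subset of the real line, so it has box dimension at most one.
Proof. (1) If `w.im ≠ 0` there is `z ∈ ball 0 1` with `kb z = w` (`kb z = z / (1 - z)^2`): the polynomial
`w z² - (2 w + 1) z + w` has a root `z₁ ≠ 0` and the other root is `1/z₁` (`w ≠ 0`); neither is `1` as the value at `1` is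
`-1`. If both roots have modulus `≥ 1` then `‖z₁‖ = 1`, and then `w = z₁/(1-z₁)² = 1/(z₁ + conj z₁ - 2)` is real, a
contradiction. (2) So `(kb '' ball 0 1)ᶜ ⊆ {w | w.im = 0}`, which is closed, and
`frontier S ⊆ closure Sᶜ ⊆ {w | w.im = 0}`. (3) `{w | w.im = 0} ∩ closedBall 0 R` is covered by the discs of radius `ρ`
around the points `ρ k`, `k` an integer with `|k| ≤ R/ρ + 1` (`Finset.image` of `Finset.Icc`); the number is
at most `2 (R/ρ + 1) + 1 ≤ 5 R/ρ ≤ 5 (R/ρ)^(1+ε)`. -/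
theorem kb_box : BoxDim (frontier (kb '' ball 0 1)) 1 := by
  have hfr : frontier (kb '' ball 0 1) ⊆ {w : ℂ | w.im = 0} := by
    have h1 : (kb '' ball 0 1)ᶜ ⊆ {w : ℂ | w.im = 0} := by
      intro w hw
      by_contra h
      obtain ⟨z, hz, hzw⟩ := bdG_root w h
      exact hw ⟨z, hz, hzw⟩
    have h2 : IsClosed {w : ℂ | w.im = 0} := isClosed_eq Complex.continuous_im continuous_const
    rw [← frontier_compl]
    exact frontier_subset_closure.trans (closure_minimal h1 h2)
  intro ε hε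
  refine ⟨5, fun R ρ hR hρ hρR => ?_⟩
  set n : ℤ := ⌈R / ρ⌉ with hn
  have hq : 1 ≤ R / ρ := by
    rw [le_div_iff₀ hρ]
    linarith
  have hn1 : (n : ℝ) < R / ρ + 1 := Int.ceil_lt_add_one _
  have hn2 : R / ρ ≤ n := Int.le_ceil _
  have hn0 : 0 ≤ n := by
    have : (0 : ℝ) ≤ n := by linarith
    exact_mod_cast this
  refine ⟨(Finset.Icc (-n) n).image (fun k : ℤ => ((ρ * k : ℝ) : ℂ)), ?_, ?_⟩
  · have h1 : (((Finset.Icc (-n) n).image (fun k : ℤ => ((ρ * k : ℝ) : ℂ))).card : ℝ) ≤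
        2 * n + 1 := by
      have h2 : ((Finset.Icc (-n) n).image (fun k : ℤ => ((ρ * k : ℝ) : ℂ))).card ≤
          (Finset.Icc (-n) n).card := Finset.card_image_le
      rw [Int.card_Icc] at h2
      have h3 : ((n + 1 - -n).toNat : ℤ) = 2 * n + 1 := by
        rw [Int.toNat_of_nonneg (by linarith)]
        ring
      have h4 : (((n + 1 - -n).toNat : ℤ) : ℝ) = 2 * n + 1 := by
        rw [h3]
        push_cast
        ring
      rw [← h4]
      exact_mod_cast h2
    have h5 : R / ρ ≤ (R / ρ) ^ (1 + ε) := by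
      calc R / ρ = (R / ρ) ^ (1 : ℝ) := (Real.rpow_one _).symm
        _ ≤ (R / ρ) ^ (1 + ε) := Real.rpow_le_rpow_of_exponent_le hq (by linarith)
    linarith
  · rintro w ⟨hw, hwR⟩
    have him : w.im = 0 := hfr hw
    have hre : |w.re| ≤ R := by
      have := mem_closedBall_zero_iff.mp hwR
      exact (Complex.abs_re_le_norm w).trans this
    obtain ⟨hl, hr⟩ := abs_le.mp hre
    rw [mem_iUnion₂]
    refine ⟨((ρ * (⌊w.re / ρ⌋ : ℤ) : ℝ) : ℂ), ?_, ?_⟩
    · rw [Finset.mem_image]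
      refine ⟨⌊w.re / ρ⌋, ?_, rfl⟩
      rw [Finset.mem_Icc]
      constructor
      · rw [Int.le_floor]
        push_cast
        have : -(R / ρ) ≤ w.re / ρ := by
          rw [← neg_div]
          exact div_le_div_of_nonneg_right hl hρ.le
        linarith
      · have h1 : (⌊w.re / ρ⌋ : ℝ) ≤ n := by
          have h2 := Int.floor_le (w.re / ρ)
          have h3 : w.re / ρ ≤ R / ρ := div_le_div_of_nonneg_right hr hρ.le
          linarith
        exact_mod_cast h1
    · rw [mem_closedBall, Complex.dist_eq]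
      have h1 : w - ((ρ * (⌊w.re / ρ⌋ : ℤ) : ℝ) : ℂ) =
          ((w.re - ρ * (⌊w.re / ρ⌋ : ℤ) : ℝ) : ℂ) := by
        apply Complex.ext
        · simp
        · simp [him]
      rw [h1, Complex.norm_real, Real.norm_eq_abs, abs_le]
      have h2 := Int.floor_le (w.re / ρ)
      have h3 := Int.lt_floor_add_one (w.re / ρ)
      rw [le_div_iff₀ hρ] at h2
      rw [div_lt_iff₀ hρ] at h3
      constructor
      · nlinarith
      · nlinarith

end Pool.Agent.Helper41.BD
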