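import Pool.Agent.Helper41.BD.Cov

/-! # BD: boundaries contained in finitely many Lipschitz curves -/

set_option autoImplicit false

namespace Pool.Agent.Helper41.BD

open Metric Set

theorem lip_box {E : Set ℂ} {n : ℕ} {K : ℝ} (hK : 0 < K) (γ : Fin n → ℝ → ℂ) (A : Fin n → Set ℝ)
    (hlip : ∀ i, ∀ s ∈ A i, ∀ t ∈ A i, ‖γ i s - γ i t‖ ≤ K * |s - t|)
    (hgr : ∀ i, ∀ t ∈ A i, |t| ≤ K * (1 + ‖γ i t‖))
    (hE : E ⊆ ⋃ i, γ i '' A i) : BoxDim E 1 := by
  classical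
  intro ε hε
  refine ⟨n * (4 * K ^ 2 + 4), fun R ρ hR h0 hρ => ?_⟩
  have hRρ : 1 ≤ R / ρ := (one_le_div h0).2 hρ
  -- the centres
  have hc : ∀ (i : Fin n) (k : ℤ), ∃ c : ℂ, ∀ t ∈ A i, ⌊t * K / ρ⌋ = k → ‖γ i t - c‖ ≤ ρ := by
    intro i k
    by_cases h : ∃ t ∈ A i, ⌊t * K / ρ⌋ = k
    · obtain ⟨s, hs, hsk⟩ := h
      refine ⟨γ i s, fun t ht htk => (hlip i t ht s hs).trans ?_⟩
      have e1 := Int.floor_le (t * K / ρ)
      have e2 := Int.lt_floor_add_one (t * K / ρ)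
      have e3 := Int.floor_le (s * K / ρ)
      have e4 := Int.lt_floor_add_one (s * K / ρ)
      rw [htk] at e1 e2
      rw [hsk] at e3 e4
      have e5 : |t * K / ρ - s * K / ρ| ≤ 1 := by
        rw [abs_le]
        constructor <;> linarith
      have e6 : |t * K / ρ - s * K / ρ| = K * |t - s| / ρ := by
        rw [← sub_div, ← sub_mul, abs_div, abs_mul, abs_of_pos hK, abs_of_pos h0]
        ring
      rw [e6, div_le_one h0] at e5
      exact e5
    · refine ⟨0, fun t ht htk => absurd ⟨t, ht, htk⟩ h⟩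
  choose c hc using hc
  obtain ⟨N, hN⟩ : ∃ N : ℕ, N = ⌈2 * K ^ 2 * (R / ρ)⌉₊ := ⟨_, rfl⟩
  have hN1 : 2 * K ^ 2 * (R / ρ) ≤ N := by rw [hN]; exact Nat.le_ceil _
  have hN2 : (N : ℝ) < 2 * K ^ 2 * (R / ρ) + 1 := by
    rw [hN]
    exact Nat.ceil_lt_add_one (by positivity)
  refine ⟨((Finset.univ : Finset (Fin n)) ×ˢ Finset.Icc (-(N : ℤ) - 1) N).image
    (fun q => c q.1 q.2), ?_, ?_⟩
  · have h1 : ((((Finset.univ : Finset (Fin n)) ×ˢ Finset.Icc (-(N : ℤ) - 1) N).image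
        (fun q => c q.1 q.2)).card : ℝ) ≤ n * (2 * N + 2) := by
      have h2 := Finset.card_image_le (s := (Finset.univ : Finset (Fin n)) ×ˢ
        Finset.Icc (-(N : ℤ) - 1) N) (f := fun q : Fin n × ℤ => c q.1 q.2)
      have h3 : ((Finset.univ : Finset (Fin n)) ×ˢ Finset.Icc (-(N : ℤ) - 1) N).card =
          n * (2 * N + 2) := by
        rw [Finset.card_product, Finset.card_univ, Fintype.card_fin, Int.card_Icc]
        congr 1
        omega
      rw [h3] at h2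
      exact_mod_cast h2
    refine h1.trans ?_
    have h4 : (R / ρ) ≤ (R / ρ) ^ (1 + ε) := by
      calc R / ρ = (R / ρ) ^ (1 : ℝ) := (Real.rpow_one _).symm
        _ ≤ (R / ρ) ^ (1 + ε) := Real.rpow_le_rpow_of_exponent_le hRρ (by linarith)
    have h5 : 2 * (N : ℝ) + 2 ≤ (4 * K ^ 2 + 4) * (R / ρ) := by nlinarith
    calc (n : ℝ) * (2 * N + 2) ≤ n * ((4 * K ^ 2 + 4) * (R / ρ)) :=
          mul_le_mul_of_nonneg_left h5 (Nat.cast_nonneg _)
      _ = n * (4 * K ^ 2 + 4) * (R / ρ) := by ring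
      _ ≤ n * (4 * K ^ 2 + 4) * (R / ρ) ^ (1 + ε) :=
          mul_le_mul_of_nonneg_left h4 (by positivity)
  · rintro e ⟨heE, heR⟩
    obtain ⟨i, t, ht, rfl⟩ := mem_iUnion.1 (hE heE)
    rw [mem_closedBall_zero_iff] at heR
    have ht1 : |t| ≤ 2 * K * R := by
      refine (hgr i t ht).trans ?_
      calc K * (1 + ‖γ i t‖) ≤ K * (2 * R) := mul_le_mul_of_nonneg_left (by linarith) hK.le
        _ = 2 * K * R := by ring
    have ht2 : |t * K / ρ| ≤ 2 * K ^ 2 * (R / ρ) := by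
      rw [abs_div, abs_mul, abs_of_pos hK, abs_of_pos h0, ← mul_div_assoc]
      refine div_le_div_of_nonneg_right ?_ h0.le
      calc |t| * K ≤ 2 * K * R * K := mul_le_mul_of_nonneg_right ht1 hK.le
        _ = 2 * K ^ 2 * R := by ring
    have ht3 := abs_le.1 (ht2.trans hN1)
    have hk : ⌊t * K / ρ⌋ ∈ Finset.Icc (-(N : ℤ) - 1) N := by
      rw [Finset.mem_Icc]
      constructor
      · rw [Int.le_floor]
        push_cast
        linarith
      · have h6 := Int.floor_le (t * K / ρ)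
        have h7 : ((⌊t * K / ρ⌋ : ℤ) : ℝ) ≤ ((N : ℤ) : ℝ) := by
          push_cast
          linarith
        exact_mod_cast h7
    rw [mem_iUnion₂]
    refine ⟨c i ⌊t * K / ρ⌋, ?_, ?_⟩
    · rw [Finset.mem_image]
      exact ⟨(i, ⌊t * K / ρ⌋), Finset.mem_product.2 ⟨Finset.mem_univ _, hk⟩, rfl⟩
    · rw [mem_closedBall, dist_eq_norm]
      exact hc i _ t ht rfl

end Pool.Agent.Helper41.BD
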