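import Pool.Agent.Helper41.BD.Pz

/-! # BD: means with positive powers of `1 + |f|` -/

set_option autoImplicit false

namespace Pool.Agent.Helper41.BD

open Complex Metric Set Real Finset MeasureTheory
open Pool.Agent.Helper21.IM Pool.Agent.Helper21.KP

/-- piece `BD-K`: `(1 + |w|)^a ≤ C (|w - w₁|^a + |w - w₂|^a)` for `w₁ ≠ w₂`.
Proof. Let `δ = ‖w₁ - w₂‖ > 0`. `1 + ‖w‖ ≤ 1 + ‖w₁‖ + ‖w - w₁‖` and the same for `w₂`; `m := max ‖w - w₁‖ ‖w - w₂‖ ≥ δ/2`, so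
`1 + ‖w‖ ≤ 1 + ‖w₁‖ + ‖w₂‖ + m ≤ K m` with `K = 2 (1 + ‖w₁‖ + ‖w₂‖)/δ + 1`; `C = K^a`. -/
theorem two_pt {w₁ w₂ : ℂ} (h : w₁ ≠ w₂) {a : ℝ} (ha : 0 ≤ a) :
    ∃ C : ℝ, 0 < C ∧ ∀ w : ℂ, (1 + ‖w‖) ^ a ≤ C * (‖w - w₁‖ ^ a + ‖w - w₂‖ ^ a) := by
  obtain ⟨δ, hδ⟩ : ∃ δ, δ = ‖w₁ - w₂‖ := ⟨_, rfl⟩
  have hδ0 : 0 < δ := by
    rw [hδ]
    exact norm_pos_iff.2 (sub_ne_zero.2 h)
  obtain ⟨K, hK⟩ : ∃ K, K = 2 * (1 + ‖w₁‖ + ‖w₂‖) / δ + 1 := ⟨_, rfl⟩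
  have hA : 0 < 1 + ‖w₁‖ + ‖w₂‖ := by
    have h1 := norm_nonneg w₁
    have h2 := norm_nonneg w₂
    linarith
  have hK0 : 0 < K := by
    rw [hK]
    have h1 := div_pos (mul_pos two_pos hA) hδ0
    linarith
  refine ⟨K ^ a, Real.rpow_pos_of_pos hK0 a, fun w => ?_⟩
  have h1 : δ ≤ ‖w - w₁‖ + ‖w - w₂‖ := by
    rw [hδ]
    have h2 : w₁ - w₂ = (w - w₂) - (w - w₁) := by ring
    rw [h2]
    refine (norm_sub_le _ _).trans ?_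
    linarith
  have h2 : ‖w‖ ≤ ‖w - w₁‖ + ‖w₁‖ := by
    have h3 := norm_add_le (w - w₁) w₁
    rwa [sub_add_cancel] at h3
  have h3 : ‖w‖ ≤ ‖w - w₂‖ + ‖w₂‖ := by
    have h4 := norm_add_le (w - w₂) w₂
    rwa [sub_add_cancel] at h4
  have key : ∀ m : ℝ, δ / 2 ≤ m → 1 + ‖w‖ ≤ 1 + ‖w₁‖ + ‖w₂‖ + m → 1 + ‖w‖ ≤ K * m := by
    intro m hm h4
    have h5 : 1 + ‖w₁‖ + ‖w₂‖ ≤ 2 * (1 + ‖w₁‖ + ‖w₂‖) / δ * m := by
      rw [div_mul_eq_mul_div, le_div_iff₀ hδ0]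
      have h6 := mul_le_mul_of_nonneg_left hm hA.le
      linarith
    rw [hK, add_mul, one_mul]
    linarith
  have h0 : 0 ≤ 1 + ‖w‖ := by
    have h4 := norm_nonneg w
    linarith
  have hn1 := norm_nonneg w₁
  have hn2 := norm_nonneg w₂
  have hp : ∀ v : ℂ, 0 ≤ ‖w - v‖ ^ a := fun v => Real.rpow_nonneg (norm_nonneg _) a
  have hKa : 0 ≤ K ^ a := (Real.rpow_pos_of_pos hK0 a).le
  rcases le_total ‖w - w₁‖ ‖w - w₂‖ with h4 | h4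
  · have h5 := key ‖w - w₂‖ (by linarith) (by linarith)
    have h6 := Real.rpow_le_rpow h0 h5 ha
    rw [Real.mul_rpow hK0.le (norm_nonneg _)] at h6
    have h7 := mul_nonneg hKa (hp w₁)
    linarith
  · have h5 := key ‖w - w₁‖ (by linarith) (by linarith)
    have h6 := Real.rpow_le_rpow h0 h5 ha
    rw [Real.mul_rpow hK0.le (norm_nonneg _)] at h6
    have h7 := mul_nonneg hKa (hp w₂)
    linarith

private theorem bdL_int {f h : ℂ → ℂ} (hf : DifferentiableOn ℂ f (ball 0 1))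
    (hh : ContinuousOn h (ball 0 1)) {s a c : ℝ} (hs : 0 ≤ s) (ha : 0 ≤ a) {ρ : ℝ} (h0 : 0 ≤ ρ)
    (h1 : ρ < 1) : CircleIntegrable (fun z => ‖deriv f z‖ ^ s * (c + ‖h z‖) ^ a) 0 ρ := by
  apply ContinuousOn.circleIntegrable'
  have hsub : sphere (0 : ℂ) |ρ| ⊆ ball 0 1 := fun z hz => by
    rw [mem_sphere_zero_iff_norm, abs_of_nonneg h0] at hz
    rw [mem_ball_zero_iff, hz]
    exact h1
  have hd : ContinuousOn (fun z => ‖deriv f z‖) (sphere (0 : ℂ) |ρ|) :=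
    ((hf.deriv isOpen_ball).continuousOn.mono hsub).norm
  have hg : ContinuousOn (fun z => c + ‖h z‖) (sphere (0 : ℂ) |ρ|) :=
    continuousOn_const.add (hh.mono hsub).norm
  exact (hd.rpow_const fun z _ => Or.inr hs).mul (hg.rpow_const fun z _ => Or.inr ha)

private theorem bdL_main {f : ℂ → ℂ} (hf : DifferentiableOn ℂ f (ball 0 1)) {w₁ w₂ : ℂ}
    (hw : w₁ ≠ w₂) {s a E C₁ C₂ : ℝ} (hs : 0 ≤ s) (ha : 0 ≤ a) (hC₁ : 0 < C₁) (hC₂ : 0 < C₂)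
    (h1 : ∀ ρ : ℝ, 0 ≤ ρ → ρ < 1 →
      circleAverage (fun z => ‖deriv f z‖ ^ s * ‖f z - w₁‖ ^ a) 0 ρ ≤ C₁ * (1 - ρ) ^ (-E))
    (h2 : ∀ ρ : ℝ, 0 ≤ ρ → ρ < 1 →
      circleAverage (fun z => ‖deriv f z‖ ^ s * ‖f z - w₂‖ ^ a) 0 ρ ≤ C₂ * (1 - ρ) ^ (-E)) :
    ∃ C : ℝ, 0 < C ∧ ∀ ρ : ℝ, 0 ≤ ρ → ρ < 1 →
      circleAverage (fun z => ‖deriv f z‖ ^ s * (1 + ‖f z‖) ^ a) 0 ρ ≤ C * (1 - ρ) ^ (-E) := by
  obtain ⟨C, hC, hpt⟩ := two_pt hw ha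
  refine ⟨C * (C₁ + C₂), by positivity, fun ρ hρ0 hρ1 => ?_⟩
  have i0 : CircleIntegrable (fun z => ‖deriv f z‖ ^ s * (1 + ‖f z‖) ^ a) 0 ρ :=
    bdL_int hf hf.continuousOn hs ha hρ0 hρ1
  have i1 : CircleIntegrable (fun z => ‖deriv f z‖ ^ s * ‖f z - w₁‖ ^ a) 0 ρ := by
    have h := bdL_int (c := 0) hf (hf.continuousOn.sub (continuousOn_const (c := w₁))) hs ha hρ0 hρ1
    simpa only [zero_add, Pi.sub_apply] using h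
  have i2 : CircleIntegrable (fun z => ‖deriv f z‖ ^ s * ‖f z - w₂‖ ^ a) 0 ρ := by
    have h := bdL_int (c := 0) hf (hf.continuousOn.sub (continuousOn_const (c := w₂))) hs ha hρ0 hρ1
    simpa only [zero_add, Pi.sub_apply] using h
  have i3 : CircleIntegrable (fun z => ‖deriv f z‖ ^ s * ‖f z - w₁‖ ^ a +
      ‖deriv f z‖ ^ s * ‖f z - w₂‖ ^ a) 0 ρ := i1.add i2
  have i4 : CircleIntegrable (fun z => C • (‖deriv f z‖ ^ s * ‖f z - w₁‖ ^ a +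
      ‖deriv f z‖ ^ s * ‖f z - w₂‖ ^ a)) 0 ρ := i3.const_smul
  have h3 := circleAverage_mono i0 i4 (fun z _ => by
    have h4 := mul_le_mul_of_nonneg_left (hpt (f z)) (Real.rpow_nonneg (norm_nonneg (deriv f z)) s)
    rw [smul_eq_mul]
    linarith)
  rw [circleAverage_fun_smul, circleAverage_fun_add i1 i2, smul_eq_mul] at h3
  have h5 := h1 ρ hρ0 hρ1
  have h6 := h2 ρ hρ0 hρ1
  have h7 := mul_le_mul_of_nonneg_left (add_le_add h5 h6) hC.le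
  calc _ ≤ _ := h3
    _ ≤ _ := h7
    _ = _ := by ring

/-- piece `BD-L`: `t₀ = 0`.
Proof. `two_omit` gives `w₁ ≠ w₂`, `two_pt`, and `pz` for `F = f - w₁` and for `F = f - w₂` (`circleAverage_mono`,
`circleAverage_fun_add`, `circleAverage_fun_smul`; the functions are continuous on the circle, see `JHold_cont` in
KP/JHold.lean). -/
theorem q_mean0 {f : ℂ → ℂ} (hf : DifferentiableOn ℂ f (ball 0 1)) (hi : InjOn f (ball 0 1))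
    {a : ℝ} (ha : 1 / 2 < a) :
    ∃ C : ℝ, 0 < C ∧ ∀ ρ : ℝ, 0 ≤ ρ → ρ < 1 →
      circleAverage (fun z => ‖deriv f z‖ ^ (0 : ℝ) * (1 + ‖f z‖) ^ a) 0 ρ ≤
        C * (1 - ρ) ^ (-(3 * 0 + 2 * a - 1)) := by
  obtain ⟨w₁, w₂, hw, hw₁, hw₂⟩ := two_omit hf hi
  have key : ∀ w : ℂ, (∀ z ∈ ball (0 : ℂ) 1, f z ≠ w) → ∃ C : ℝ, 0 < C ∧ ∀ ρ : ℝ, 0 ≤ ρ → ρ < 1 →
      circleAverage (fun z => ‖deriv f z‖ ^ (0 : ℝ) * ‖f z - w‖ ^ a) 0 ρ ≤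
        C * (1 - ρ) ^ (-(3 * 0 + 2 * a - 1)) := by
    intro w hne
    obtain ⟨C, hC, h⟩ := pz (F := fun z => f z - w) (hf.sub_const w)
      (fun z hz z' hz' h => hi hz hz' (sub_left_injective h))
      (fun z hz => sub_ne_zero.2 (hne z hz)) ha
    refine ⟨C, hC, fun ρ h0 h1 => ?_⟩
    have e1 : (fun z => ‖deriv f z‖ ^ (0 : ℝ) * ‖f z - w‖ ^ a) = fun z => ‖f z - w‖ ^ a := by
      funext z
      rw [Real.rpow_zero, one_mul]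
    have e2 : -(3 * 0 + 2 * a - 1) = -(2 * a - 1) := by ring
    rw [e1, e2]
    exact h ρ h0 h1
  obtain ⟨C₁, hC₁, h1⟩ := key w₁ hw₁
  obtain ⟨C₂, hC₂, h2⟩ := key w₂ hw₂
  exact bdL_main hf hw le_rfl (by linarith) hC₁ hC₂ h1 h2

/-- piece `BD-L`, second part: `t₀ = 6/25`.
Proof. The same with `j_mean` (KP/JMean.lean) instead of `pz`; `deriv (f - w₁) = deriv f`. -/
theorem q_mean1 {f : ℂ → ℂ} (hf : DifferentiableOn ℂ f (ball 0 1)) (hi : InjOn f (ball 0 1))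
    {a : ℝ} (ha0 : 0 ≤ a) (ha : 1 / 24 < 2 * a + 18 / 25 - 1) :
    ∃ C : ℝ, 0 < C ∧ ∀ ρ : ℝ, 0 ≤ ρ → ρ < 1 →
      circleAverage (fun z => ‖deriv f z‖ ^ (6 / 25 : ℝ) * (1 + ‖f z‖) ^ a) 0 ρ ≤
        C * (1 - ρ) ^ (-(3 * (6 / 25) + 2 * a - 1)) := by
  obtain ⟨w₁, w₂, hw, hw₁, hw₂⟩ := two_omit hf hi
  have key : ∀ w : ℂ, (∀ z ∈ ball (0 : ℂ) 1, f z ≠ w) → ∃ C : ℝ, 0 < C ∧ ∀ ρ : ℝ, 0 ≤ ρ → ρ < 1 →
      circleAverage (fun z => ‖deriv f z‖ ^ (6 / 25 : ℝ) * ‖f z - w‖ ^ a) 0 ρ ≤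
        C * (1 - ρ) ^ (-(3 * (6 / 25) + 2 * a - 1)) := by
    intro w hne
    obtain ⟨C, hC, h⟩ := j_mean (F := fun z => f z - w) (hf.sub_const w)
      (fun z hz z' hz' h => hi hz hz' (sub_left_injective h))
      (fun z hz => sub_ne_zero.2 (hne z hz)) ha
    refine ⟨C, hC, fun ρ h0 h1 => ?_⟩
    have e1 : (fun z => ‖deriv f z‖ ^ (6 / 25 : ℝ) * ‖f z - w‖ ^ a) =
        fun z => ‖deriv (fun z => f z - w) z‖ ^ ((6 : ℝ) / 25) * ‖f z - w‖ ^ a := by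
      funext z
      rw [deriv_sub_const]
    have e2 : -(3 * (6 / 25) + 2 * a - 1) = -(18 / 25 + 2 * a - 1) := by ring
    rw [e1, e2]
    exact h ρ h0 h1
  obtain ⟨C₁, hC₁, h1⟩ := key w₁ hw₁
  obtain ⟨C₂, hC₂, h2⟩ := key w₂ hw₂
  exact bdL_main hf hw (by norm_num) ha0 hC₁ hC₂ h1 h2

end Pool.Agent.Helper41.BD
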