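import Pool.Agent.Helper21.KP.Main
import Pool.Agent.Helper21.IM.RMono

/-! # BD: other exponents -/

set_option autoImplicit false

namespace Pool.Agent.Helper41.BD

open Complex Metric Set Real Finset MeasureTheory
open Pool.Agent.Helper21.IM Pool.Agent.Helper21.KP

private theorem bdM_cont {f : ℂ → ℂ} (hf : DifferentiableOn ℂ f (ball 0 1)) {s : ℝ} (hs : 0 ≤ s)
    {ρ : ℝ} (h0 : 0 ≤ ρ) (h1 : ρ < 1) : CircleIntegrable (fun z => ‖deriv f z‖ ^ s) 0 ρ := by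
  apply ContinuousOn.circleIntegrable'
  have hsub : sphere (0 : ℂ) |ρ| ⊆ ball 0 1 := by
    intro z hz
    rw [abs_of_nonneg h0, mem_sphere_zero_iff_norm] at hz
    rw [mem_ball_zero_iff, hz]
    exact h1
  have hd : ContinuousOn (fun z => ‖deriv f z‖) (sphere (0 : ℂ) |ρ|) :=
    ((hf.deriv isOpen_ball).continuousOn.mono hsub).norm
  exact hd.rpow_const fun z _ => Or.inr hs

/-- piece `BD-M`: larger exponents.
Proof. `deriv_growth` (KP/Bieb.lean): `‖f' z‖ ≤ D (1-ρ)^(-3)` on `|z| = ρ`, `‖f'‖^lam = ‖f'‖^(lam-t) ‖f'‖^t`; see `JHold_large`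
in KP/JHold.lean. -/
theorem up {f : ℂ → ℂ} (hf : DifferentiableOn ℂ f (ball 0 1)) (hi : InjOn f (ball 0 1)) {t lam : ℝ}
    (ht : 0 < t) (hl : t ≤ lam)
    (h : ∃ C : ℝ, 0 < C ∧ ∀ ρ : ℝ, 0 ≤ ρ → ρ < 1 →
      circleAverage (fun z => ‖deriv f z‖ ^ t) 0 ρ ≤ C * (1 - ρ) ^ (-(3 * t - 1))) :
    ∃ C : ℝ, 0 < C ∧ ∀ ρ : ℝ, 0 ≤ ρ → ρ < 1 →
      circleAverage (fun z => ‖deriv f z‖ ^ lam) 0 ρ ≤ C * (1 - ρ) ^ (-(3 * lam - 1)) := by
  obtain ⟨C₂, hC₂, hQ⟩ := h
  obtain ⟨D, hD⟩ : ∃ D : ℝ, D = 2 * (‖deriv f 0‖ + 1) := ⟨_, rfl⟩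
  have hD0 : 0 < D := by rw [hD]; positivity
  refine ⟨D ^ (lam - t) * C₂, by positivity, fun ρ h0 h1 => ?_⟩
  have h1ρ : 0 < 1 - ρ := by linarith
  have hQ' := hQ ρ h0 h1
  have hIQ := bdM_cont hf ht.le h0 h1
  have hI := bdM_cont hf (ht.le.trans hl) h0 h1
  obtain ⟨M, hM⟩ : ∃ M : ℝ, M = D * (1 - ρ) ^ (-3 : ℝ) := ⟨_, rfl⟩
  have hM0 : 0 < M := by rw [hM]; positivity
  have key : circleAverage (fun z => ‖deriv f z‖ ^ lam) 0 ρ ≤
      circleAverage (fun z => (M ^ (lam - t)) • (‖deriv f z‖ ^ t)) 0 ρ := by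
    refine circleAverage_mono hI hIQ.const_fun_smul fun z hz => ?_
    have hz2 : ‖z‖ = ρ := by
      rwa [abs_of_nonneg h0, mem_sphere_zero_iff_norm] at hz
    have hz1 : z ∈ ball (0 : ℂ) 1 := by rw [mem_ball_zero_iff, hz2]; exact h1
    have hdz : 0 ≤ ‖deriv f z‖ := norm_nonneg _
    have hg := deriv_growth hf hi hz1
    rw [hz2] at hg
    have hle : ‖deriv f z‖ ≤ M := by
      refine hg.trans ?_
      have e1 : (1 - ρ) ^ (-3 : ℝ) = ((1 - ρ) ^ 3)⁻¹ := by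
        rw [Real.rpow_neg h1ρ.le]
        norm_cast
      rw [hM, hD, e1, div_eq_mul_inv, ← mul_assoc]
      refine mul_le_mul_of_nonneg_right ?_ (by positivity)
      have := norm_nonneg (deriv f 0)
      nlinarith
    rw [smul_eq_mul]
    have e2 : ‖deriv f z‖ ^ lam = ‖deriv f z‖ ^ (lam - t) * ‖deriv f z‖ ^ t := by
      rw [← Real.rpow_add_of_nonneg hdz (by linarith) ht.le]
      congr 1
      ring
    rw [e2]
    refine mul_le_mul_of_nonneg_right ?_ (by positivity)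
    exact Real.rpow_le_rpow hdz hle (by linarith)
  refine key.trans ?_
  rw [circleAverage_fun_smul, smul_eq_mul]
  refine (mul_le_mul_of_nonneg_left hQ' (by positivity)).trans (le_of_eq ?_)
  rw [hM, Real.mul_rpow hD0.le (by positivity), ← Real.rpow_mul h1ρ.le]
  have e3 : (1 - ρ) ^ (-(3 * lam - 1)) =
      (1 - ρ) ^ (-3 * (lam - t)) * (1 - ρ) ^ (-(3 * t - 1)) := by
    rw [← Real.rpow_add h1ρ]
    congr 1
    ring
  rw [e3]
  ring

private theorem bdN_cont {f : ℂ → ℂ} (hf : DifferentiableOn ℂ f (ball 0 1)) {s : ℝ} (hs : 0 ≤ s)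
    {ρ : ℝ} (h0 : 0 ≤ ρ) (h1 : ρ < 1) : CircleIntegrable (fun z => ‖deriv f z‖ ^ s) 0 ρ := by
  apply ContinuousOn.circleIntegrable'
  have hsub : sphere (0 : ℂ) |ρ| ⊆ ball 0 1 := by
    intro z hz
    rw [abs_of_nonneg h0, mem_sphere_zero_iff_norm] at hz
    rw [mem_ball_zero_iff, hz]
    exact h1
  have hd : ContinuousOn (fun z => ‖deriv f z‖) (sphere (0 : ℂ) |ρ|) :=
    ((hf.deriv isOpen_ball).continuousOn.mono hsub).norm
  exact hd.rpow_const fun z _ => Or.inr hs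

private theorem bdN_mean {f : ℂ → ℂ} (hf : DifferentiableOn ℂ f (ball 0 1)) {t lam : ℝ}
    (hl : 0 < lam) (hlt : lam ≤ t) {ρ A : ℝ} (h0 : 0 ≤ ρ) (h1 : ρ < 1) (hA : 0 < A)
    (h : circleAverage (fun z => ‖deriv f z‖ ^ t) 0 ρ ≤ A) :
    circleAverage (fun z => ‖deriv f z‖ ^ lam) 0 ρ ≤ A ^ (lam / t) := by
  have ht : 0 < t := by linarith
  obtain ⟨v, hv⟩ : ∃ v : ℝ, v = lam / t := ⟨_, rfl⟩
  have hv0 : 0 < v := by rw [hv]; positivity
  have hv1 : 0 ≤ 1 - v := by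
    have : v ≤ 1 := by
      rw [hv, div_le_one ht]
      exact hlt
    linarith
  have hIt := bdN_cont hf ht.le h0 h1
  have hIl := bdN_cont hf hl.le h0 h1
  rw [← hv]
  have key : circleAverage (fun z => ‖deriv f z‖ ^ lam) 0 ρ ≤
      circleAverage (fun z => (A ^ v * (v / A)) • (‖deriv f z‖ ^ t) + A ^ v * (1 - v)) 0 ρ := by
    refine circleAverage_mono hIl ?_ fun z hz => ?_
    · exact (hIt.const_fun_smul).add (circleIntegrable_const _ _ _)
    · have hdz : 0 ≤ ‖deriv f z‖ := norm_nonneg _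
      have hy : 0 ≤ ‖deriv f z‖ ^ t := by positivity
      have e1 : ‖deriv f z‖ ^ lam = (‖deriv f z‖ ^ t) ^ v := by
        rw [← Real.rpow_mul hdz]
        congr 1
        rw [hv]
        field_simp
      have e4 := Real.geom_mean_le_arith_mean2_weighted hv0.le hv1 (div_nonneg hy hA.le)
        zero_le_one (by ring)
      rw [Real.div_rpow hy hA.le, Real.one_rpow, mul_one, mul_one] at e4
      have hAv : 0 < A ^ v := by positivity
      rw [e1]
      have e5 : (‖deriv f z‖ ^ t) ^ v = A ^ v * ((‖deriv f z‖ ^ t) ^ v / A ^ v) := by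
        field_simp
      rw [e5]
      refine (mul_le_mul_of_nonneg_left e4 hAv.le).trans (le_of_eq ?_)
      simp only [smul_eq_mul]
      ring
  refine key.trans ?_
  rw [circleAverage_fun_add hIt.const_fun_smul (circleIntegrable_const _ _ _),
    circleAverage_fun_smul, circleAverage_const, smul_eq_mul]
  have h2 : 0 ≤ A ^ v * (v / A) := by positivity
  have h3 := mul_le_mul_of_nonneg_left h h2
  have h4 : A ^ v * (v / A) * A = A ^ v * v := by field_simp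
  rw [h4] at h3
  linarith

/-- piece `BD-N`: smaller exponents.
Proof. `θ = lam/t ∈ (0, 1]`. With `A = C (1-ρ)^(-(3t-1)) > 0` and `y = ‖f' z‖^t`: `‖f'‖^lam = y^θ ≤ A^θ (θ y/A + 1 - θ)`
(`Real.geom_mean_le_arith_mean2_weighted`, see `JHold_small` in KP/JHold.lean), so the mean of `‖f'‖^lam` is at most `A^θ`, and
`(A^θ)^(1/lam) = A^(1/t) = C^(1/t) (1-ρ)^(-(3 - 1/t))`. Conversion of the circle average to the interval integral:
`Main_avg` in KP/Main.lean (`circleAverage_def`, `circleMap`). -/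
theorem down {f : ℂ → ℂ} (hf : DifferentiableOn ℂ f (ball 0 1)) {t lam : ℝ}
    (hl : 0 < lam) (hlt : lam ≤ t)
    (h : ∃ C : ℝ, 0 < C ∧ ∀ ρ : ℝ, 0 ≤ ρ → ρ < 1 →
      circleAverage (fun z => ‖deriv f z‖ ^ t) 0 ρ ≤ C * (1 - ρ) ^ (-(3 * t - 1))) :
    ∃ B : ℝ, ∀ r : ℝ, 0 < r → r < 1 →
      ((2 * π)⁻¹ * ∫ θ in (0 : ℝ)..2 * π, ‖deriv f (r * Complex.exp (θ * I))‖ ^ lam) ^ (1 / lam) ≤
        B * (1 - r) ^ (-(3 - 1 / t)) := by
  have ht : 0 < t := by linarith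
  obtain ⟨C, hC, h⟩ := h
  refine ⟨C ^ (1 / t), fun r h0 h1 => ?_⟩
  have hr : 0 < 1 - r := by linarith
  have hA : 0 < C * (1 - r) ^ (-(3 * t - 1)) := by positivity
  have hm := bdN_mean hf hl hlt h0.le h1 hA (h r h0.le h1)
  have havg : circleAverage (fun z => ‖deriv f z‖ ^ lam) 0 r =
      (2 * π)⁻¹ * ∫ θ in (0 : ℝ)..2 * π, ‖deriv f (r * Complex.exp (θ * I))‖ ^ lam := by
    rw [circleAverage_def, smul_eq_mul]
    congr 2
    ext θ
    rw [circleMap, zero_add]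
  rw [havg] at hm
  have hnn : 0 ≤ (2 * π)⁻¹ * ∫ θ in (0 : ℝ)..2 * π,
      ‖deriv f (r * Complex.exp (θ * I))‖ ^ lam := by
    refine mul_nonneg (by positivity) ?_
    exact intervalIntegral.integral_nonneg (by positivity) fun θ _ =>
      Real.rpow_nonneg (norm_nonneg _) _
  refine (Real.rpow_le_rpow hnn hm (by positivity)).trans (le_of_eq ?_)
  rw [← Real.rpow_mul hA.le]
  have e1 : lam / t * (1 / lam) = 1 / t := by field_simp
  rw [e1, Real.mul_rpow hC.le (Real.rpow_nonneg hr.le _), ← Real.rpow_mul hr.le]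
  congr 2
  field_simp

/-- piece `BD-O`: the means are bounded below by a positive constant.
Proof. `rg_mono` (IM/RMono.lean): the circle average at `r` is at least the one at `0`, which is `‖f' 0‖^lam > 0`
(`circleAverage_zero` or the definition); `f' 0 ≠ 0` by `deriv_ne`. -/
theorem base {f : ℂ → ℂ} (hf : DifferentiableOn ℂ f (ball 0 1)) (hi : InjOn f (ball 0 1))
    {lam : ℝ} (hl : 0 < lam) :
    ∃ c : ℝ, 0 < c ∧ ∀ r : ℝ, 0 < r → r < 1 → c ≤
      ((2 * π)⁻¹ * ∫ θ in (0 : ℝ)..2 * π, ‖deriv f (r * Complex.exp (θ * I))‖ ^ lam) ^ (1 / lam) := by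
  have h0 : 0 < ‖deriv f 0‖ ^ lam := by
    have h1 : deriv f 0 ≠ 0 := deriv_ne isOpen_ball hf hi (mem_ball_self one_pos)
    have h2 : 0 < ‖deriv f 0‖ := norm_pos_iff.2 h1
    positivity
  refine ⟨(‖deriv f 0‖ ^ lam) ^ (1 / lam), Real.rpow_pos_of_pos h0 _, fun r hr0 hr1 => ?_⟩
  have havg : circleAverage (fun z => ‖deriv f z‖ ^ lam) 0 r =
      (2 * π)⁻¹ * ∫ θ in (0 : ℝ)..2 * π, ‖deriv f (r * Complex.exp (θ * I))‖ ^ lam := by
    rw [circleAverage_def, smul_eq_mul]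
    congr 2
    ext θ
    rw [circleMap, zero_add]
  have hm := rg_mono hf hi hl le_rfl hr0.le hr1
  rw [circleAverage_zero, havg] at hm
  exact Real.rpow_le_rpow h0.le hm (by positivity)

end Pool.Agent.Helper41.BD
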