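import Pool.Agent.Helper41.BD.An
import Pool.Agent.Helper41.BD.Qm
import Pool.Agent.Helper41.BD.Up
import Pool.Agent.Helper41.BD.Ko

/-! # BD: the main theorem -/

set_option autoImplicit false

namespace Pool.Agent.Helper41.BD

open Complex Metric Set Real Finset MeasureTheory
open Pool.Agent.Helper21.IM Pool.Agent.Helper21.KP

/-- choice of the parameters of `interp` -/
private theorem pick {s t₀ a₀ t : ℝ} (hs1 : 1 ≤ s) (hs2 : s < 2) (ha₀ : 0 < a₀) (ht : t₀ < t)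
    (ht1 : t < 1) (ht2 : t < t₀ + a₀) (h : s * (t₀ + a₀) < t * (s + a₀)) :
    ∃ p b x a : ℝ, s < p ∧ p ≤ 2 ∧ 0 ≤ b ∧ b < p ∧ 0 < x ∧ x < 1 ∧ a * (1 - x) = b * x ∧
      t = t₀ * (1 - x) + p * x ∧ a₀ < a := by
  have hd : 0 < t₀ + a₀ - t := by linarith
  have htt : 0 < t - t₀ := by linarith
  obtain ⟨P, hP⟩ : ∃ P : ℝ, P = a₀ * t / (t₀ + a₀ - t) := ⟨_, rfl⟩
  have hPd : P * (t₀ + a₀ - t) = a₀ * t := by rw [hP]; field_simp
  have hsP : s < P := by
    rw [hP, lt_div_iff₀ hd]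
    nlinarith
  obtain ⟨p, hp1, hp2, hp3⟩ : ∃ p : ℝ, s < p ∧ p ≤ 2 ∧ p < P := by
    refine ⟨min 2 ((s + P) / 2), lt_min hs2 (by linarith), min_le_left _ _, ?_⟩
    exact lt_of_le_of_lt (min_le_right _ _) (by linarith)
  have hpt : 0 < p - t := by linarith
  have hpt0 : 0 < p - t₀ := by linarith
  have hkey : a₀ * (p - t) < p * (t - t₀) := by
    have : p * (t₀ + a₀ - t) < P * (t₀ + a₀ - t) := mul_lt_mul_of_pos_right hp3 hd
    rw [hPd] at this
    nlinarith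
  obtain ⟨b₀, hb₀⟩ : ∃ b₀ : ℝ, b₀ = a₀ * (p - t) / (t - t₀) := ⟨_, rfl⟩
  have hb0 : 0 < b₀ := by rw [hb₀]; positivity
  have hbp : b₀ < p := by
    rw [hb₀, div_lt_iff₀ htt]
    exact hkey
  refine ⟨p, (b₀ + p) / 2, (t - t₀) / (p - t₀), (b₀ + p) / 2 * (t - t₀) / (p - t), hp1, hp2,
    by linarith, by linarith, div_pos htt hpt0, ?_, ?_, ?_, ?_⟩
  · rw [div_lt_one hpt0]
    linarith
  · field_simp
    ring
  · field_simp
    ring
  · rw [lt_div_iff₀ hpt]
    have e1 : b₀ * (t - t₀) = a₀ * (p - t) := by rw [hb₀]; field_simp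
    have e2 : b₀ * (t - t₀) < (b₀ + p) / 2 * (t - t₀) :=
      mul_lt_mul_of_pos_right (by linarith) htt
    linarith

/-- the threshold -/
noncomputable def kap (s : ℝ) : ℝ := min (s / (2 * s + 1)) (481 * s / (1200 * s + 193))

theorem kap_pos {s : ℝ} (hs : 1 ≤ s) : 0 < kap s := by
  unfold kap
  have h0 : 0 < s := by linarith
  exact lt_min (by positivity) (by positivity)

theorem kap_one : kap 1 = 1 / 3 := by
  unfold kap
  rw [min_eq_left (by norm_num)]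
  norm_num

/-- exact order above the threshold -/
theorem up_main {f : ℂ → ℂ} (hf : DifferentiableOn ℂ f (ball 0 1)) (hi : InjOn f (ball 0 1))
    {s : ℝ} (hs1 : 1 ≤ s) (hs2 : s < 2) (hE : BoxDim (frontier (f '' ball 0 1)) s) {lam : ℝ}
    (hl : kap s < lam) :
    ∃ C : ℝ, 0 < C ∧ ∀ ρ : ℝ, 0 ≤ ρ → ρ < 1 →
      circleAverage (fun z => ‖deriv f z‖ ^ lam) 0 ρ ≤ C * (1 - ρ) ^ (-(3 * lam - 1)) := by
  have h0 : 0 < s := by linarith
  rcases min_lt_iff.1 hl with h | h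
  · -- `t₀ = 0`, `a₀ = 1/2`
    have h9 : s / (2 * s + 1) < 9 / 20 := by
      rw [div_lt_iff₀ (by positivity)]
      linarith
    obtain ⟨t, ht1, ht2, ht3⟩ : ∃ t : ℝ, s / (2 * s + 1) < t ∧ t ≤ lam ∧ t ≤ 9 / 20 :=
      ⟨min lam (9 / 20), lt_min h h9, min_le_left _ _, min_le_right _ _⟩
    have ht0 : 0 < t := lt_of_le_of_lt (by positivity) ht1
    rw [div_lt_iff₀ (by positivity)] at ht1
    obtain ⟨p, b, x, a, hp1, hp2, hb0, hbp, hx0, hx1, hax, htx, haa⟩ :=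
      pick (t₀ := 0) (a₀ := 1 / 2) (t := t) hs1 hs2 (by norm_num) ht0 (by linarith) (by linarith)
        (by nlinarith)
    refine up hf hi ht0 ht2 ?_
    exact interp hf hi h0.le hp1 hp2 hb0 hbp hE le_rfl hx0 hx1 (by linarith) hax htx
      (q_mean0 hf hi haa)
  · -- `t₀ = 6/25`, `a₀ = 193/1200`
    have h9 : 481 * s / (1200 * s + 193) < 2 / 5 := by
      rw [div_lt_iff₀ (by positivity)]
      linarith
    have h10 : 6 / 25 < 481 * s / (1200 * s + 193) := by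
      rw [lt_div_iff₀ (by positivity)]
      linarith
    obtain ⟨t, ht1, ht2, ht3⟩ : ∃ t : ℝ, 481 * s / (1200 * s + 193) < t ∧ t ≤ lam ∧ t ≤ 2 / 5 :=
      ⟨min lam (2 / 5), lt_min h h9, min_le_left _ _, min_le_right _ _⟩
    have ht0 : 6 / 25 < t := h10.trans ht1
    rw [div_lt_iff₀ (by positivity)] at ht1
    obtain ⟨p, b, x, a, hp1, hp2, hb0, hbp, hx0, hx1, hax, htx, haa⟩ :=
      pick (t₀ := 6 / 25) (a₀ := 193 / 1200) (t := t) hs1 hs2 (by norm_num) ht0 (by linarith)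
        (by linarith) (by nlinarith)
    refine up hf hi (by linarith) ht2 ?_
    exact interp hf hi h0.le hp1 hp2 hb0 hbp hE (by norm_num) hx0 hx1 (by linarith) hax htx
      (q_mean1 hf hi (by linarith) (by linarith))

private theorem cast_lim {m : ℝ} (hm : 0 < m) :
    Filter.Tendsto (fun t : ℝ => ((3 - 1 / t : ℝ) : EReal)) (nhdsWithin m (Ioi m))
      (nhds ((3 - 1 / m : ℝ) : EReal)) := by
  have h1 : ContinuousAt (fun t : ℝ => (3 - 1 / t : ℝ)) m := by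
    refine continuousAt_const.sub (continuousAt_const.div continuousAt_id hm.ne')
  exact ((continuous_coe_real_ereal.tendsto _).comp h1.tendsto).mono_left nhdsWithin_le_nhds

/-- the order of the means for all exponents -/
theorem ord_main {f : ℂ → ℂ} (hf : DifferentiableOn ℂ f (ball 0 1)) (hi : InjOn f (ball 0 1))
    {s : ℝ} (hs1 : 1 ≤ s) (hs2 : s < 2) (hE : BoxDim (frontier (f '' ball 0 1)) s) {lam : ℝ}
    (hl : 0 < lam) :
    Filter.limsup (fun r : ℝ =>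
      ((Real.log (((2 * π)⁻¹ * ∫ θ in (0 : ℝ)..2 * π,
        ‖deriv f (r * Complex.exp (θ * I))‖ ^ lam) ^ (1 / lam)) / Real.log (1 / (1 - r)) : ℝ) : EReal))
        (nhdsWithin 1 (Iio 1)) ≤ ((max (3 - 1 / kap s) (3 - 1 / lam) : ℝ) : EReal) := by
  have hk := kap_pos hs1
  obtain ⟨m, hm⟩ : ∃ m : ℝ, m = max (kap s) lam := ⟨_, rfl⟩
  have hm0 : 0 < m := by rw [hm]; exact lt_max_of_lt_left hk
  have hmax : max (3 - 1 / kap s) (3 - 1 / lam) = 3 - 1 / m := by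
    rcases le_total (kap s) lam with h | h
    · have e1 : 1 / lam ≤ 1 / kap s := one_div_le_one_div_of_le hk h
      rw [hm, max_eq_right h, max_eq_right (by linarith)]
    · have e1 : 1 / kap s ≤ 1 / lam := one_div_le_one_div_of_le hl h
      rw [hm, max_eq_left h, max_eq_left (by linarith)]
  rw [hmax]
  refine ge_of_tendsto (cast_lim hm0) ?_
  filter_upwards [self_mem_nhdsWithin] with t ht
  have ht' : m < t := ht
  have hkt : kap s < t := lt_of_le_of_lt (by rw [hm]; exact le_max_left _ _) ht'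
  have hlt : lam ≤ t := (lt_of_le_of_lt (by rw [hm]; exact le_max_right _ _) ht').le
  obtain ⟨B, hB⟩ := down hf hl hlt (up_main hf hi hs1 hs2 hE hkt)
  exact ord_le (I := fun r => ((2 * π)⁻¹ * ∫ θ in (0 : ℝ)..2 * π,
        ‖deriv f (r * Complex.exp (θ * I))‖ ^ lam) ^ (1 / lam))
    (fun r h0 h1 => km_pos lam hf hi h0 h1) hB

theorem BoxDim.mono {E : Set ℂ} {s s' : ℝ} (h : BoxDim E s) (hs : s ≤ s') : BoxDim E s' := by
  intro ε hε
  obtain ⟨C, hC⟩ := h ε hε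
  refine ⟨max C 0, fun R ρ hR h0 hρ => ?_⟩
  obtain ⟨T, hT, hcov⟩ := hC R ρ hR h0 hρ
  refine ⟨T, hT.trans ?_, hcov⟩
  have h1 : 1 ≤ R / ρ := (one_le_div h0).2 hρ
  have h2 : 0 ≤ (R / ρ) ^ (s + ε) := by positivity
  calc C * (R / ρ) ^ (s + ε) ≤ max C 0 * (R / ρ) ^ (s + ε) :=
        mul_le_mul_of_nonneg_right (le_max_left _ _) h2
    _ ≤ max C 0 * (R / ρ) ^ (s' + ε) :=
        mul_le_mul_of_nonneg_left (Real.rpow_le_rpow_of_exponent_le h1 (by linarith)) (le_max_right _ _)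

end Pool.Agent.Helper41.BD
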