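import Pool.Agent.Helper21.KP.JHold
import Pool.Agent.Helper21.KP.Omit

/-! # BD: Prawitz' estimate and omitted values -/

set_option autoImplicit false

namespace Pool.Agent.Helper41.BD

open Complex Metric Set Real Finset MeasureTheory
open Pool.Agent.Helper21.IM Pool.Agent.Helper21.KP

private theorem bdD_pow {ρ σ : ℝ} (h0 : 0 ≤ ρ) (h : ρ ≤ σ) (m : ℕ) :
    σ ^ m - ρ ^ m ≤ m * σ ^ (m - 1) * (σ - ρ) := by
  have hσ : 0 ≤ σ := h0.trans h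
  have hd : 0 ≤ σ - ρ := sub_nonneg.2 h
  induction m with
  | zero => simp
  | succ n ih =>
    rw [Nat.add_sub_cancel]
    have e1 : σ ^ (n + 1) - ρ ^ (n + 1) = σ * (σ ^ n - ρ ^ n) + (σ - ρ) * ρ ^ n := by ring
    have e2 : σ * (σ ^ n - ρ ^ n) ≤ σ * (n * σ ^ (n - 1) * (σ - ρ)) :=
      mul_le_mul_of_nonneg_left ih hσ
    have e3 : (σ - ρ) * ρ ^ n ≤ (σ - ρ) * σ ^ n :=
      mul_le_mul_of_nonneg_left (pow_le_pow_left₀ h0 h n) hd
    have e4 : σ * (n * σ ^ (n - 1) * (σ - ρ)) = n * σ ^ n * (σ - ρ) := by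
      rcases Nat.eq_zero_or_pos n with rfl | hn
      · simp
      · obtain ⟨k, rfl⟩ := Nat.exists_eq_succ_of_ne_zero hn.ne'
        rw [Nat.succ_sub_one, pow_succ]
        ring
    push_cast
    nlinarith

private theorem bdD_sq {δ : ℝ} (hδ : 0 < δ) (x y : ℝ) :
    (x + y) ^ 2 ≤ (1 + δ) * x ^ 2 + (1 + 1 / δ) * y ^ 2 := by
  have h : 0 ≤ (δ * x - y) ^ 2 / δ := by positivity
  have e : (δ * x - y) ^ 2 / δ = δ * x ^ 2 - 2 * x * y + 1 / δ * y ^ 2 := by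
    field_simp
    ring
  rw [e] at h
  nlinarith

/-- piece `BD-D`: one step for the square means of a power series.
Proof. `parseval_sq` (Pool/Agent/Helper21/IM/Par.lean) for `P` and for `deriv P` (`ps_deriv`, IM/PSBasic.lean; the coefficients are
`(m + 1) a (m + 1)`). For `m ≥ 1`, `0 ≤ σ^m - ρ^m ≤ m σ^(m-1) (σ - ρ)`, so
`‖a m‖² σ^(2m) = ‖a m‖² (ρ^m + (σ^m - ρ^m))² ≤ (1 + δ) ‖a m‖² ρ^(2m) + (1 + 1/δ) (σ - ρ)² m² ‖a m‖² σ^(2(m-1))`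
(`(x + y)² ≤ (1 + δ) x² + (1 + 1/δ) y²`), and sum over `m` (`hasSum_le`, shift of the index for the derivative). -/
theorem step {P : ℂ → ℂ} (hP : DifferentiableOn ℂ P (ball 0 1)) {ρ σ δ : ℝ} (h0 : 0 ≤ ρ)
    (h : ρ ≤ σ) (h1 : σ < 1) (hδ : 0 < δ) :
    circleAverage (fun z => ‖P z‖ ^ 2) 0 σ ≤
      (1 + δ) * circleAverage (fun z => ‖P z‖ ^ 2) 0 ρ +
        (1 + 1 / δ) * (σ - ρ) ^ 2 * circleAverage (fun z => ‖deriv P z‖ ^ 2) 0 σ := by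
  obtain ⟨a, ha⟩ := ps_exists hP
  have e1 := parseval_sq ha (h0.trans h) h1
  have e2 := parseval_sq ha h0 (h.trans_lt h1)
  have e3 := parseval_sq (ps_deriv ha) (h0.trans h) h1
  -- the derivative with shifted index
  have e4 : HasSum (fun m : ℕ => if m = 0 then 0 else
      (m : ℝ) ^ 2 * ‖a m‖ ^ 2 * σ ^ (2 * (m - 1))) (circleAverage (fun z => ‖deriv P z‖ ^ 2) 0 σ) := by
    rw [← hasSum_nat_add_iff' 1]
    simp only [Finset.range_one, Finset.sum_singleton, if_true, sub_zero]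
    have e5 : ∀ m : ℕ, ‖((m : ℂ) + 1) * a (m + 1)‖ ^ 2 * σ ^ (2 * m) = (if m + 1 = 0 then 0 else
        ((m + 1 : ℕ) : ℝ) ^ 2 * ‖a (m + 1)‖ ^ 2 * σ ^ (2 * (m + 1 - 1))) := by
      intro m
      rw [if_neg (Nat.succ_ne_zero m), Nat.add_sub_cancel, norm_mul, mul_pow]
      have : ‖(m : ℂ) + 1‖ = (m : ℝ) + 1 := by
        rw [← Nat.cast_succ, Complex.norm_natCast, Nat.cast_succ]
      rw [this, Nat.cast_add, Nat.cast_one]
    simp only [e5] at e3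
    exact e3
  refine hasSum_le (fun m => ?_) e1 ((e2.mul_left (1 + δ)).add
    (e4.mul_left ((1 + 1 / δ) * (σ - ρ) ^ 2)))
  rcases Nat.eq_zero_or_pos m with rfl | hm
  · simp only [mul_zero, pow_zero, mul_one, if_true, add_zero]
    have := sq_nonneg ‖a 0‖
    nlinarith
  · rw [if_neg hm.ne']
    have hσ : 0 ≤ σ := h0.trans h
    have hd : σ ^ m - ρ ^ m ≤ m * σ ^ (m - 1) * (σ - ρ) := bdD_pow h0 h m
    have hd0 : 0 ≤ σ ^ m - ρ ^ m := sub_nonneg.2 (pow_le_pow_left₀ h0 h m)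
    have hsq : (σ ^ m - ρ ^ m) ^ 2 ≤ (m * σ ^ (m - 1) * (σ - ρ)) ^ 2 := pow_le_pow_left₀ hd0 hd 2
    have hy : σ ^ (2 * m) ≤ (1 + δ) * ρ ^ (2 * m) + (1 + 1 / δ) * (σ ^ m - ρ ^ m) ^ 2 := by
      have e5 : σ ^ (2 * m) = (ρ ^ m + (σ ^ m - ρ ^ m)) ^ 2 := by
        rw [mul_comm, pow_mul]
        ring
      have e6 : ρ ^ (2 * m) = (ρ ^ m) ^ 2 := by
        rw [mul_comm, pow_mul]
      rw [e5, e6]
      exact bdD_sq hδ _ _
    have h2 : (m * σ ^ (m - 1) * (σ - ρ)) ^ 2 = (σ - ρ) ^ 2 * ((m : ℝ) ^ 2 * σ ^ (2 * (m - 1))) := by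
      rw [mul_comm 2 (m - 1), pow_mul]
      ring
    have h3 : 0 < 1 + 1 / δ := by positivity
    calc ‖a m‖ ^ 2 * σ ^ (2 * m)
        ≤ ‖a m‖ ^ 2 * ((1 + δ) * ρ ^ (2 * m) + (1 + 1 / δ) * (σ ^ m - ρ ^ m) ^ 2) :=
          mul_le_mul_of_nonneg_left hy (sq_nonneg _)
      _ ≤ ‖a m‖ ^ 2 * ((1 + δ) * ρ ^ (2 * m) + (1 + 1 / δ) * (m * σ ^ (m - 1) * (σ - ρ)) ^ 2) := by
          refine mul_le_mul_of_nonneg_left ?_ (sq_nonneg _)
          have := mul_le_mul_of_nonneg_left hsq h3.le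
          linarith
      _ = (1 + δ) * (‖a m‖ ^ 2 * ρ ^ (2 * m)) + (1 + 1 / δ) * (σ - ρ) ^ 2 *
          ((m : ℝ) ^ 2 * ‖a m‖ ^ 2 * σ ^ (2 * (m - 1))) := by
          rw [h2]
          ring

private theorem bdE_psi {F : ℂ → ℂ} (hF : DifferentiableOn ℂ F (ball 0 1))
    (hne : ∀ z ∈ ball (0 : ℂ) 1, F z ≠ 0) (q : ℝ) :
    ∃ ψ : ℂ → ℂ, DifferentiableOn ℂ ψ (ball 0 1) ∧
      (∀ z ∈ ball (0 : ℂ) 1, ‖ψ z‖ ^ 2 = ‖F z‖ ^ q) ∧
      ∀ z ∈ ball (0 : ℂ) 1, ‖deriv ψ z‖ ^ 2 = q ^ 2 / 4 * (‖deriv F z‖ ^ 2 * ‖F z‖ ^ (q - 2)) := by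
  have h00 : (0 : ℂ) ∈ ball (0 : ℂ) 1 := by simp
  have hF0 : F 0 ≠ 0 := hne 0 h00
  obtain ⟨L, hLd, -, hL⟩ := log_disc (h := fun z => F z / F 0) (hF.div_const _)
    (fun z hz => div_ne_zero (hne z hz) hF0) (div_self hF0)
  have hder : ∀ z ∈ ball (0 : ℂ) 1,
      deriv (fun z => F z / F 0) z / (F z / F 0) = deriv F z / F z := by
    intro z hz
    have h1 := hne z hz
    rw [deriv_div_const]
    field_simp
  have hre : ∀ z : ℂ, ((q : ℂ) / 2 * L z).re = q / 2 * (L z).re := by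
    intro z
    have e1 : (q : ℂ) / 2 = ((q / 2 : ℝ) : ℂ) := by push_cast; ring
    rw [e1, Complex.re_ofReal_mul]
  have hLre : ∀ z ∈ ball (0 : ℂ) 1, ‖F z‖ = Real.exp ((L z).re) * ‖F 0‖ := by
    intro z hz
    have h1 := congrArg norm (hL z hz).1
    rw [Complex.norm_exp, norm_div, eq_div_iff (norm_ne_zero_iff.2 hF0)] at h1
    exact h1.symm
  obtain ⟨c, hc⟩ : ∃ c : ℝ, c = ‖F 0‖ ^ (q / 2) := ⟨_, rfl⟩
  have hcn : 0 ≤ c := by rw [hc]; positivity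
  have hcc : c ^ 2 = ‖F 0‖ ^ q := by
    rw [hc, ← Real.rpow_natCast, ← Real.rpow_mul (norm_nonneg _)]
    congr 1
    push_cast
    ring
  have hψ : ∀ z ∈ ball (0 : ℂ) 1, HasDerivAt (fun z => Complex.exp ((q : ℂ) / 2 * L z) * (c : ℂ))
      (Complex.exp ((q : ℂ) / 2 * L z) * ((q : ℂ) / 2 * (deriv F z / F z)) * (c : ℂ)) z := by
    intro z hz
    have h1 := (hL z hz).2
    rw [hder z hz] at h1
    exact ((h1.const_mul ((q : ℂ) / 2)).cexp).mul_const _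
  have hsq : ∀ z ∈ ball (0 : ℂ) 1, ‖Complex.exp ((q : ℂ) / 2 * L z) * (c : ℂ)‖ ^ 2 = ‖F z‖ ^ q := by
    intro z hz
    rw [norm_mul, Complex.norm_exp, hre, Complex.norm_real, Real.norm_of_nonneg hcn, mul_pow, hcc,
      hLre z hz, Real.mul_rpow (Real.exp_pos _).le (norm_nonneg _), ← Real.exp_nat_mul,
      ← Real.exp_mul]
    congr 2
    push_cast
    ring
  refine ⟨fun z => Complex.exp ((q : ℂ) / 2 * L z) * (c : ℂ),
    fun z hz => (hψ z hz).differentiableAt.differentiableWithinAt, hsq, fun z hz => ?_⟩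
  have hn : 0 < ‖F z‖ := norm_pos_iff.2 (hne z hz)
  rw [(hψ z hz).deriv]
  have e1 : Complex.exp ((q : ℂ) / 2 * L z) * ((q : ℂ) / 2 * (deriv F z / F z)) * (c : ℂ) =
      (Complex.exp ((q : ℂ) / 2 * L z) * (c : ℂ)) * ((q : ℂ) / 2 * (deriv F z / F z)) := by ring
  have e2 : ‖(q : ℂ) / 2 * (deriv F z / F z)‖ ^ 2 = q ^ 2 / 4 * (‖deriv F z‖ ^ 2 / ‖F z‖ ^ 2) := by
    have e3 : (q : ℂ) / 2 = ((q / 2 : ℝ) : ℂ) := by push_cast; ring
    rw [norm_mul, e3, Complex.norm_real, Real.norm_eq_abs, mul_pow, sq_abs, norm_div, div_pow, div_pow]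
    ring
  rw [e1, norm_mul, mul_pow, hsq z hz, e2, Real.rpow_sub hn, Real.rpow_two]
  ring

/-- piece `BD-E`: Prawitz' estimate.
Proof. `j_area` (Pool/Agent/Helper21/KP/JArea.lean) with `b = 2 - q`: circle means of `‖F'‖² ‖F‖^(q-2)` are
`≤ C (1-ρ)^(-(2 q + 1))`. There is an analytic `ψ` with `‖ψ‖² = ‖F‖^q`, `ψ' = (q/2) (F'/F) ψ`, so
`‖ψ'‖² = (q²/4) ‖F'‖² ‖F‖^(q-2)` on the disc (`F = F 0 * exp L`, `log_disc` in Pool/Agent/Helper21/IM, or a primitive of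
`F'/F` as in KP/Psi.lean: `ψ = exp (q/2 * L)`). By `step` with `1 - ρ_k = 2^(-k)`, `σ = ρ_(k+1)`, `ρ = ρ_k`,
`M_(k+1) ≤ (1 + δ) M_k + C' 2^(k (2q - 1))`; `δ` with `1 + δ < 2^(2q-1)`; induction: `M_k ≤ C'' 2^(k (2q-1))`. For
`ρ ∈ [ρ_k, ρ_(k+1))` monotonicity (`mean_mono` in IM/Par.lean). -/
theorem pz {F : ℂ → ℂ} (hF : DifferentiableOn ℂ F (ball 0 1)) (hi : InjOn F (ball 0 1))
    (hne : ∀ z ∈ ball (0 : ℂ) 1, F z ≠ 0) {q : ℝ} (hq : 1 / 2 < q) :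
    ∃ C : ℝ, 0 < C ∧ ∀ ρ : ℝ, 0 ≤ ρ → ρ < 1 →
      circleAverage (fun z => ‖F z‖ ^ q) 0 ρ ≤ C * (1 - ρ) ^ (-(2 * q - 1)) := by
  obtain ⟨ψ, hψd, hψ1, hψ2⟩ := bdE_psi hF hne q
  obtain ⟨C0, hC0, hC⟩ := j_area hF hi hne (b := 2 - q) (by linarith)
  have hsph : ∀ {ρ : ℝ}, 0 ≤ ρ → ρ < 1 → ∀ z ∈ sphere (0 : ℂ) |ρ|, z ∈ ball (0 : ℂ) 1 := by
    intro ρ h0 h1 z hz
    rw [mem_sphere_zero_iff_norm, abs_of_nonneg h0] at hz
    rw [mem_ball_zero_iff, hz]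
    exact h1
  have hM : ∀ ρ : ℝ, 0 ≤ ρ → ρ < 1 →
      circleAverage (fun z => ‖F z‖ ^ q) 0 ρ = circleAverage (fun z => ‖ψ z‖ ^ 2) 0 ρ :=
    fun ρ h0 h1 => circleAverage_congr_sphere fun z hz => (hψ1 z (hsph h0 h1 z hz)).symm
  have hD : ∀ ρ : ℝ, 0 ≤ ρ → ρ < 1 → circleAverage (fun z => ‖deriv ψ z‖ ^ 2) 0 ρ ≤
      q ^ 2 / 4 * C0 * (1 - ρ) ^ (-(2 * q + 1)) := by
    intro ρ h0 h1
    have e1 : circleAverage (fun z => ‖deriv ψ z‖ ^ 2) 0 ρ =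
        q ^ 2 / 4 * circleAverage (fun z => ‖deriv F z‖ ^ 2 * ‖F z‖ ^ (-(2 - q))) 0 ρ := by
      rw [← smul_eq_mul, ← circleAverage_fun_smul]
      refine circleAverage_congr_sphere fun z hz => ?_
      rw [smul_eq_mul, hψ2 z (hsph h0 h1 z hz)]
      congr 3
      ring
    rw [e1, mul_assoc]
    refine mul_le_mul_of_nonneg_left ?_ (by positivity)
    have e2 : -(2 * q + 1) = -(5 - 2 * (2 - q)) := by ring
    rw [e2]
    exact hC ρ h0 h1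
  -- the induction
  obtain ⟨l, hl⟩ : ∃ l : ℝ, l = 2 ^ (2 * q - 1) := ⟨_, rfl⟩
  have hl1 : 1 < l := by
    rw [hl]
    exact Real.one_lt_rpow (by norm_num) (by linarith)
  obtain ⟨δ, hδ⟩ : ∃ δ : ℝ, δ = (l - 1) / 2 := ⟨_, rfl⟩
  have hδ0 : 0 < δ := by rw [hδ]; linarith
  obtain ⟨C2, hC2⟩ : ∃ C2 : ℝ, C2 = (1 + 1 / δ) * (q ^ 2 / 4 * C0) := ⟨_, rfl⟩
  have hC20 : 0 ≤ C2 := by rw [hC2]; positivity
  obtain ⟨r, hr⟩ : ∃ r : ℕ → ℝ, r = fun k => 1 - (2⁻¹ : ℝ) ^ k := ⟨_, rfl⟩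
  have hrk : ∀ k, r k = 1 - (2⁻¹ : ℝ) ^ k := fun k => by rw [hr]
  have hp0 : ∀ k : ℕ, 0 < (2⁻¹ : ℝ) ^ k := fun k => by positivity
  have hp1 : ∀ k : ℕ, (2⁻¹ : ℝ) ^ k ≤ 1 := fun k => pow_le_one₀ (by norm_num) (by norm_num)
  have hr0 : ∀ k, 0 ≤ r k := fun k => by rw [hrk]; linarith [hp1 k]
  have hr1 : ∀ k, r k < 1 := fun k => by rw [hrk]; linarith [hp0 k]
  obtain ⟨A, hA⟩ : ∃ A : ℝ, A = circleAverage (fun z => ‖ψ z‖ ^ 2) 0 (r 0) +
      2 * C2 * l / (l - 1) + 1 := ⟨_, rfl⟩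
  have hl0 : 0 < l - 1 := by linarith
  have hM0 : 0 ≤ circleAverage (fun z => ‖ψ z‖ ^ 2) 0 (r 0) :=
    circleAverage_nonneg_of_nonneg fun z _ => sq_nonneg _
  have hC2l : 0 ≤ 2 * C2 * l / (l - 1) := by positivity
  have hA0 : 0 < A := by rw [hA]; linarith
  have hA2 : C2 * l ≤ A * ((l - 1) / 2) := by
    have h1 : 2 * C2 * l / (l - 1) ≤ A := by rw [hA]; linarith
    rw [div_le_iff₀ hl0] at h1
    linarith
  have hk : ∀ k : ℕ, circleAverage (fun z => ‖ψ z‖ ^ 2) 0 (r k) ≤ A * l ^ k := by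
    intro k
    induction k with
    | zero =>
      rw [pow_zero, mul_one, hA]
      linarith
    | succ k ih =>
      have hle : r k ≤ r (k + 1) := by
        rw [hrk, hrk]
        have : (2⁻¹ : ℝ) ^ (k + 1) ≤ (2⁻¹ : ℝ) ^ k :=
          pow_le_pow_of_le_one (by norm_num) (by norm_num) (Nat.le_succ k)
        linarith
      have h1 := step hψd (hr0 k) hle (hr1 (k + 1)) hδ0
      have h2 := hD (r (k + 1)) (hr0 _) (hr1 _)
      have e1 : r (k + 1) - r k = (2⁻¹ : ℝ) ^ (k + 1) := by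
        rw [hrk, hrk, pow_succ]
        ring
      have e2 : 1 - r (k + 1) = (2⁻¹ : ℝ) ^ (k + 1) := by
        rw [hrk]
        ring
      have e3 : ((2⁻¹ : ℝ) ^ (k + 1)) ^ 2 * ((2⁻¹ : ℝ) ^ (k + 1)) ^ (-(2 * q + 1)) = l ^ (k + 1) := by
        rw [← Real.rpow_natCast ((2⁻¹ : ℝ) ^ (k + 1)) 2, ← Real.rpow_add (hp0 _),
          ← Real.rpow_natCast (2⁻¹ : ℝ) (k + 1), ← Real.rpow_mul (by norm_num),
          Real.inv_rpow (by norm_num), ← Real.rpow_neg (by norm_num), hl,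
          ← Real.rpow_natCast _ (k + 1), ← Real.rpow_mul (by norm_num)]
        congr 1
        push_cast
        ring
      have h3 : (1 + 1 / δ) * (r (k + 1) - r k) ^ 2 *
          circleAverage (fun z => ‖deriv ψ z‖ ^ 2) 0 (r (k + 1)) ≤ C2 * l ^ (k + 1) := by
        have h4 : (1 + 1 / δ) * (r (k + 1) - r k) ^ 2 *
            circleAverage (fun z => ‖deriv ψ z‖ ^ 2) 0 (r (k + 1)) ≤
            (1 + 1 / δ) * (r (k + 1) - r k) ^ 2 *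
              (q ^ 2 / 4 * C0 * (1 - r (k + 1)) ^ (-(2 * q + 1))) :=
          mul_le_mul_of_nonneg_left h2 (by positivity)
        refine h4.trans_eq ?_
        rw [e1, e2, ← e3, hC2]
        ring
      have h5 : (1 + δ) * circleAverage (fun z => ‖ψ z‖ ^ 2) 0 (r k) ≤ (1 + δ) * (A * l ^ k) :=
        mul_le_mul_of_nonneg_left ih (by linarith)
      have h6 : (1 + δ) * (A * l ^ k) + C2 * l ^ (k + 1) ≤ A * l ^ (k + 1) := by
        have h7 : 0 < l ^ k := by positivity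
        have h8 : C2 * l * l ^ k ≤ A * ((l - 1) / 2) * l ^ k := mul_le_mul_of_nonneg_right hA2 h7.le
        rw [pow_succ, hδ]
        linarith
      linarith
  refine ⟨A * l, by positivity, fun ρ h0 h1 => ?_⟩
  obtain ⟨k, hk1, hk2⟩ := exists_nat_pow_near_of_lt_one (x := 1 - ρ) (y := (2⁻¹ : ℝ))
    (by linarith) (by linarith) (by norm_num) (by norm_num)
  rw [hM ρ h0 h1]
  have h2 : ρ ≤ r (k + 1) := by
    rw [hrk]
    linarith
  refine (circ_mono hψd h0 h2 (hr1 (k + 1))).trans ((hk (k + 1)).trans ?_)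
  rw [pow_succ, mul_comm (l ^ k) l, ← mul_assoc]
  refine mul_le_mul_of_nonneg_left ?_ (by positivity)
  have h3 : 0 < 1 - ρ := by linarith
  have e4 : l ^ k = ((2⁻¹ : ℝ) ^ k) ^ (-(2 * q - 1)) := by
    rw [← Real.rpow_natCast (2⁻¹ : ℝ) k, ← Real.rpow_mul (by norm_num),
      Real.inv_rpow (by norm_num), ← Real.rpow_neg (by norm_num), hl,
      ← Real.rpow_natCast _ k, ← Real.rpow_mul (by norm_num)]
    congr 1
    ring
  rw [e4]
  exact Real.rpow_le_rpow_of_nonpos h3 hk2 (by linarith)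

/-- piece `BD-F`: two omitted values.
Proof. `omit_val` gives `w₁`. Suppose that every `w ≠ w₁` is attained. `F = f - w₁` has no zeros, so `F = g²` with
`g` analytic on the disc (exponential of half of a logarithm, see KP/Psi.lean or `log_disc` in IM). `g` is injective, as `F` is, and
`H := g '' ball 0 1` is open (`AnalyticOnNhd.is_constant_or_isOpen`, or the open mapping from `deriv g ≠ 0`). `H` and `-H` are disjoint
(`g z = - g w` gives `F z = F w`, `z = w`, `g z = 0`, a contradiction), nonempty and open, and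
`H ∪ (-H) = {0}ᶜ` by the assumption. But `{0}ᶜ ⊆ ℂ` is connected (`isPreconnected_compl_singleton_of_one_lt_rank`). -/
theorem two_omit {f : ℂ → ℂ} (hf : DifferentiableOn ℂ f (ball 0 1)) (hi : InjOn f (ball 0 1)) :
    ∃ w₁ w₂ : ℂ, w₁ ≠ w₂ ∧ (∀ z ∈ ball (0 : ℂ) 1, f z ≠ w₁) ∧ ∀ z ∈ ball (0 : ℂ) 1, f z ≠ w₂ := by
  obtain ⟨w₁, hw₁⟩ := omit_val hf hi
  by_contra hcon
  push Not at hcon
  have hall : ∀ w, w ≠ w₁ → ∃ z ∈ ball (0 : ℂ) 1, f z = w := fun w hw => hcon w₁ w hw.symm hw₁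
  have h0m : (0 : ℂ) ∈ ball (0 : ℂ) 1 := by simp
  have hF0 : f 0 - w₁ ≠ 0 := sub_ne_zero.2 (hw₁ 0 h0m)
  obtain ⟨c, hc⟩ := IsAlgClosed.exists_pow_nat_eq (f 0 - w₁) (n := 2) (by norm_num)
  have hc0 : c ≠ 0 := by
    rintro rfl
    apply hF0
    rw [← hc]
    norm_num
  obtain ⟨L, hL, -, hL2⟩ := log_disc (h := fun z => (f z - w₁) / (f 0 - w₁))
    ((hf.sub_const w₁).div_const _) (fun z hz => div_ne_zero (sub_ne_zero.2 (hw₁ z hz)) hF0)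
    (div_self hF0)
  set g : ℂ → ℂ := fun z => c * exp (L z / 2) with hg
  have hgd : DifferentiableOn ℂ g (ball 0 1) := (hL.div_const 2).cexp.const_mul c
  have hg2 : ∀ z ∈ ball (0 : ℂ) 1, g z ^ 2 = f z - w₁ := by
    intro z hz
    have h1 := (hL2 z hz).1
    simp only [hg]
    rw [mul_pow, hc, ← Complex.exp_nat_mul]
    have h2 : ((2 : ℕ) : ℂ) * (L z / 2) = L z := by push_cast; ring
    rw [h2, h1]
    field_simp
  have hgn : ∀ z, g z ≠ 0 := fun z => mul_ne_zero hc0 (Complex.exp_ne_zero _)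
  have hgi : InjOn g (ball 0 1) := by
    intro z hz w hw h
    apply hi hz hw
    have h1 := hg2 z hz
    have h2 := hg2 w hw
    rw [h] at h1
    linear_combination h2 - h1
  set H : Set ℂ := g '' ball 0 1 with hH
  have hHo : IsOpen H := by
    rw [isOpen_iff_mem_nhds]
    rintro _ ⟨z, hz, rfl⟩
    have h1 : HasStrictDerivAt g (deriv g z) z :=
      (hgd.analyticAt (isOpen_ball.mem_nhds hz)).hasStrictDerivAt
    rw [← h1.map_nhds_eq (deriv_ne isOpen_ball hgd hgi hz)]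
    exact Filter.image_mem_map (isOpen_ball.mem_nhds hz)
  have hNo : IsOpen (Neg.neg ⁻¹' H) := hHo.preimage continuous_neg
  have hpre : IsPreconnected ({0}ᶜ : Set ℂ) :=
    (isConnected_compl_singleton_of_one_lt_rank (rank_real_complex ▸ Nat.one_lt_ofNat) _).isPreconnected
  have hcov : ({0}ᶜ : Set ℂ) ⊆ H ∪ Neg.neg ⁻¹' H := by
    intro w hw
    have hw0 : w ≠ 0 := hw
    obtain ⟨z, hz, hfz⟩ := hall (w ^ 2 + w₁) (by
      intro h
      apply hw0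
      have : w ^ 2 = 0 := by linear_combination h
      exact pow_eq_zero_iff (by norm_num) |>.1 this)
    have h1 := hg2 z hz
    rw [hfz, add_sub_cancel_right] at h1
    rcases sq_eq_sq_iff_eq_or_eq_neg.1 h1 with h2 | h2
    · exact Or.inl ⟨z, hz, h2⟩
    · exact Or.inr ⟨z, hz, h2⟩
  have hne1 : (({0}ᶜ : Set ℂ) ∩ H).Nonempty := ⟨g 0, hgn 0, ⟨0, h0m, rfl⟩⟩
  have hne2 : (({0}ᶜ : Set ℂ) ∩ Neg.neg ⁻¹' H).Nonempty :=
    ⟨-g 0, neg_ne_zero.2 (hgn 0), ⟨0, h0m, (neg_neg _).symm⟩⟩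
  obtain ⟨w, -, ⟨z, hz, hzw⟩, ⟨z', hz', hzw'⟩⟩ := hpre H (Neg.neg ⁻¹' H) hHo hNo hcov hne1 hne2
  have h1 : f z = f z' := by
    have h3 := hg2 z hz
    have h4 := hg2 z' hz'
    rw [hzw] at h3
    rw [hzw'] at h4
    linear_combination h4 - h3
  have h2 := hi hz hz' h1
  rw [h2, hzw'] at hzw
  have h3 : w = 0 := by linear_combination (-1 / 2 : ℂ) * hzw
  apply hgn z'
  rw [hzw', h3, neg_zero]

end Pool.Agent.Helper41.BD
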