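import Mathlib
import Pool.Agent.Helper41.BD.Main
import Pool.Agent.Helper41.BD.Lip

/-!
# Integral means of the derivative of a univalent function whose image has a boundary of dimension `≤ s`
-/

set_option autoImplicit false

namespace Pool.Agent.Helper41.BD.Res

open Metric Set

/-- `f` is analytic and injective in the open unit disc -/
def Univalent (f : ℂ → ℂ) : Prop := DifferentiableOn ℂ f (ball 0 1) ∧ InjOn f (ball 0 1)

/-- the Koebe function -/
noncomputable def koebe (z : ℂ) : ℂ := z / (1 - z) ^ 2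

/-- the integral mean `((2 π)⁻¹ ∫₀^{2π} |f'(r exp(i θ))|^lam dθ)^(1/lam)` -/
noncomputable def intMean (f : ℂ → ℂ) (lam r : ℝ) : ℝ :=
  ((2 * Real.pi)⁻¹ * ∫ θ in (0 : ℝ)..2 * Real.pi,
    ‖deriv f (r * Complex.exp (θ * Complex.I))‖ ^ lam) ^ (1 / lam)

/-- `limsup_{r → 1-} log I_lam(r, f') / log (1/(1-r))` -/
noncomputable def order (f : ℂ → ℂ) (lam : ℝ) : EReal :=
  Filter.limsup (fun r : ℝ =>
    ((Real.log (intMean f lam r) / Real.log (1 / (1 - r)) : ℝ) : EReal)) (nhdsWithin 1 (Iio 1))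

/-- The boundary of `f(D)` has box-type dimension at most `s`: for every `ε > 0` there is `C` such that for all `R ≥ 1`
and `0 < ρ ≤ R` the part of the boundary in the closed disc of radius `R` around `0` is covered by at most
`C (R/ρ)^(s+ε)` closed discs of radius `ρ`. -/
def DimLE (f : ℂ → ℂ) (s : ℝ) : Prop :=
  ∀ ε : ℝ, 0 < ε → ∃ C : ℝ, ∀ R ρ : ℝ, 1 ≤ R → 0 < ρ → ρ ≤ R →
    ∃ T : Finset ℂ, (T.card : ℝ) ≤ C * (R / ρ) ^ (s + ε) ∧
      frontier (f '' ball 0 1) ∩ closedBall 0 R ⊆ ⋃ c ∈ T, closedBall c ρ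

/-- The boundary of `f(D)` is contained in finitely many Lipschitz curves: in the union of sets `γ i (A i)`, where `A i` is
a set of real numbers, `γ i` is Lipschitz on `A i` and `|t| ≤ K (1 + |γ i (t)|)` for `t` in `A i`. -/
def LipschitzBoundary (f : ℂ → ℂ) : Prop :=
  ∃ (n : ℕ) (K : ℝ) (γ : Fin n → ℝ → ℂ) (A : Fin n → Set ℝ), 0 < K ∧
    (∀ i, ∀ s ∈ A i, ∀ t ∈ A i, ‖γ i s - γ i t‖ ≤ K * |s - t|) ∧
    (∀ i, ∀ t ∈ A i, |t| ≤ K * (1 + ‖γ i t‖)) ∧
    frontier (f '' ball 0 1) ⊆ ⋃ i, γ i '' A i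

/-- the threshold -/
noncomputable def kappa (s : ℝ) : ℝ := min (s / (2 * s + 1)) (481 * s / (1200 * s + 193))

/-- the supremum of the orders over all univalent `f` for which the boundary of `f(D)` has dimension at most `s` -/
noncomputable def beta (s lam : ℝ) : EReal :=
  ⨆ f : {f : ℂ → ℂ // Univalent f ∧ DimLE f s}, order f.1 lam

theorem result :
    -- the class for `s = 1` contains the Koebe function and all domains with Lipschitz boundary
    (Univalent koebe ∧ DimLE koebe 1) ∧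
    (∀ f : ℂ → ℂ, LipschitzBoundary f → DimLE f 1) ∧
    -- boundaries of dimension at most `s`
    (∀ s : ℝ, 1 ≤ s → s < 2 → ∀ lam : ℝ, 0 < lam →
      (kappa s < lam → ∀ f : ℂ → ℂ, Univalent f → DimLE f s →
        ∃ B : ℝ, ∀ r : ℝ, 0 < r → r < 1 → intMean f lam r ≤ B * (1 - r) ^ (-(3 - 1 / lam))) ∧
      (∀ f : ℂ → ℂ, Univalent f → DimLE f s →
        order f lam ≤ ((max (3 - 1 / kappa s) (3 - 1 / lam) : ℝ) : EReal)) ∧
      (kappa s ≤ lam → beta s lam = ((3 - 1 / lam : ℝ) : EReal))) ∧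
    -- boundaries of dimension one: all exponents
    ∀ lam : ℝ, 0 < lam →
      beta 1 lam = ((max 0 (3 - 1 / lam) : ℝ) : EReal) ∧
      order koebe lam = ((max 0 (3 - 1 / lam) : ℝ) : EReal) := by
  have hk : Univalent koebe := ⟨Pool.Agent.Helper21.KP.kb_diff, Pool.Agent.Helper21.KP.kb_inj⟩
  have hk1 : DimLE koebe 1 := Pool.Agent.Helper41.BD.kb_box
  have hord : ∀ s : ℝ, 1 ≤ s → s < 2 → ∀ lam : ℝ, 0 < lam → ∀ f : ℂ → ℂ, Univalent f → DimLE f s →
      order f lam ≤ ((max (3 - 1 / kappa s) (3 - 1 / lam) : ℝ) : EReal) := by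
    intro s hs1 hs2 lam hl f hf hE
    exact Pool.Agent.Helper41.BD.ord_main hf.1 hf.2 hs1 hs2 hE hl
  have hlow1 : ∀ lam : ℝ, 0 < lam → ((3 - 1 / lam : ℝ) : EReal) ≤ order koebe lam := by
    intro lam hl
    obtain ⟨c, hc, hlow⟩ := Pool.Agent.Helper21.KP.km_ge hl
    exact Pool.Agent.Helper21.KP.ord_ge (I := intMean koebe lam) hc hlow
  have hlow0 : ∀ lam : ℝ, 0 < lam → ((0 : ℝ) : EReal) ≤ order koebe lam := by
    intro lam hl
    obtain ⟨c, hc, hlow⟩ := Pool.Agent.Helper41.BD.base hk.1 hk.2 hl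
    refine Pool.Agent.Helper21.KP.ord_ge (I := intMean koebe lam) (e := 0) hc fun r h0 h1 => ?_
    rw [neg_zero, Real.rpow_zero, mul_one]
    exact hlow r h0 h1
  have hmem : ∀ s : ℝ, 1 ≤ s → ∀ lam : ℝ, order koebe lam ≤ beta s lam := fun s hs lam =>
    le_iSup (fun f : {f : ℂ → ℂ // Univalent f ∧ DimLE f s} => order f.1 lam)
      ⟨koebe, hk, Pool.Agent.Helper41.BD.BoxDim.mono hk1 hs⟩
  have hb : ∀ s : ℝ, 1 ≤ s → s < 2 → ∀ lam : ℝ, 0 < lam →
      beta s lam ≤ ((max (3 - 1 / kappa s) (3 - 1 / lam) : ℝ) : EReal) := fun s hs1 hs2 lam hl =>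
    iSup_le fun f => hord s hs1 hs2 lam hl f.1 f.2.1 f.2.2
  have hkap : ∀ s : ℝ, 1 ≤ s → 0 < kappa s := fun s hs => Pool.Agent.Helper41.BD.kap_pos hs
  have hkap1 : kappa 1 = 1 / 3 := Pool.Agent.Helper41.BD.kap_one
  refine ⟨⟨hk, hk1⟩, fun f hf => ?_, fun s hs1 hs2 lam hl => ⟨fun hkl f hf hE => ?_, hord s hs1 hs2 lam hl,
    fun hkl => ?_⟩, fun lam hl => ?_⟩
  · obtain ⟨n, K, γ, A, hK, h1, h2, h3⟩ := hf
    exact Pool.Agent.Helper41.BD.lip_box hK γ A h1 h2 h3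
  · exact Pool.Agent.Helper41.BD.down hf.1 hl le_rfl
      (Pool.Agent.Helper41.BD.up_main hf.1 hf.2 hs1 hs2 hE hkl)
  · refine le_antisymm ?_ ((hlow1 lam hl).trans (hmem s hs1 lam))
    have h1 := hb s hs1 hs2 lam hl
    have e1 : 1 / lam ≤ 1 / kappa s := one_div_le_one_div_of_le (hkap s hs1) hkl
    rwa [max_eq_right (by linarith)] at h1
  · have h1 := hb 1 le_rfl (by norm_num) lam hl
    have h2 : max (3 - 1 / kappa 1) (3 - 1 / lam) = max 0 (3 - 1 / lam) := by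
      rw [hkap1]
      norm_num
    rw [h2] at h1
    have h3 : ((max 0 (3 - 1 / lam) : ℝ) : EReal) ≤ order koebe lam := by
      rcases le_total (0 : ℝ) (3 - 1 / lam) with h | h
      · rw [max_eq_right h]
        exact hlow1 lam hl
      · rw [max_eq_left h]
        exact hlow0 lam hl
    exact ⟨le_antisymm h1 (h3.trans (hmem 1 le_rfl lam)), le_antisymm ((hmem 1 le_rfl lam).trans h1) h3⟩

end Pool.Agent.Helper41.BD.Res
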